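import Pool.Agent.helper26.EC.Defs

/-!
# Project EC (MP_5628fe_nt), engine: characters of large conductor, edges, products in EVERY window. Definitions

`L = log N`, `yN N = exp (L^(19/20))`, `UN C N = ⌊N L^C⌋`.
-/

set_option autoImplicit false

namespace Pool.Agent.EC

open Finset ArithmeticFunction
open Pool.Agent.CH (Win rgh dl eU Mo ClP ClB)
open Pool.Agent.helper85.BVP (trunc beta Mr Zr)
open GD (kp ks)

/-- roughness level of the primes -/
noncomputable def yN (N : ℕ) : ℝ := Real.exp (dl N)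

/-- the cut `⌊N (log N)^C⌋` in Vaughan's identity -/
noncomputable def UN (C N : ℕ) : ℕ := ⌊(N : ℝ) * Real.log N ^ C⌋₊

/-- Dirichlet convolution of two functions -/
noncomputable def cvl (α β : ℕ → ℝ) (j : ℕ) : ℝ := ∑ w ∈ j.divisorsAntidiagonal, α w.1 * β w.2

/-- indicator of the class `a mod M` minus the contribution of the characters of conductor `≤ R` -/
noncomputable def KK (R M a j : ℕ) : ℝ := (if j ≡ a [MOD M] then 1 else 0) - ks R M a j

open Classical in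
/-- type I function: `∑_{d ∣ j, d ≤ U} ξ d (log (j/d))^h` on the rough `j` -/
noncomputable def tyI (N U h : ℕ) (ξ : ℕ → ℝ) (j : ℕ) : ℝ :=
  if rgh (yN N) j then ∑ d ∈ j.divisors with d ≤ U, ξ d * Real.log ((j / d : ℕ) : ℝ) ^ h else 0

/-- the type I part of `Λ` on the rough numbers -/
noncomputable def tI (C N j : ℕ) : ℝ :=
  tyI N (UN C N) 1 (fun d => ((moebius d : ℤ) : ℝ)) j - tyI N (UN C N) 0 (fun d => eU (UN C N) d) j

open Classical in
/-- restriction of a function to the `y`-rough numbers `> U` -/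
noncomputable def rst (N U : ℕ) (f : ℕ → ℝ) (k : ℕ) : ℝ := if rgh (yN N) k ∧ U < k then f k else 0

/-- the type II part of `Λ` on the rough numbers: both variables `> U` -/
noncomputable def tII (C N j : ℕ) : ℝ :=
  cvl (rst N (UN C N) fun b => vonMangoldt b) (rst N (UN C N) fun k => beta (UN C N) k) j -
    cvl (rst N (UN C N) fun k => eU (UN C N) k) (rst N (UN C N) fun _ => 1) j

open Classical in
/-- the edge function: `-∑_{a b c = j; a, b, c ≤ U} μ(a) Λ(b)` on the rough `j` -/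
noncomputable def edg (C N j : ℕ) : ℝ :=
  if rgh (yN N) j then - ∑ c ∈ j.divisors with c ≤ UN C N, eU (UN C N) (j / c) else 0

open Classical in
/-- `Λ` on the rough numbers minus the edge function; equal to `tI + tII` on the rough `j` of the window -/
noncomputable def mnf (C N j : ℕ) : ℝ := (if rgh (yN N) j then vonMangoldt j else 0) - edg C N j

open Classical in
/-- the tuples of `TL N a b m` -/
noncomputable def TUP {r : ℕ} (N : ℕ) (a b : Fin r → ℝ) (m : ℕ) : Finset (Fin r → ℕ) :=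
  (Fintype.piFinset fun _ : Fin r => m.primeFactors).filter fun p =>
    (∀ i, (N : ℝ) ^ a i ≤ (p i : ℝ) ∧ (p i : ℝ) < (N : ℝ) ^ b i) ∧ ∏ i, p i ∣ m

/-- edge tuples: some partial product lies in `[N^(1-3δ), N^(1+2δ))` -/
def BdT {r : ℕ} (N : ℕ) (δ : ℝ) (p : Fin r → ℕ) : Prop := ∃ S : Finset (Fin r),
  (N : ℝ) ^ (1 - 3 * δ) ≤ ∏ i ∈ S, (p i : ℝ) ∧ ∏ i ∈ S, (p i : ℝ) < (N : ℝ) ^ (1 + 2 * δ)

open Classical in
/-- the part of `TL` from the edge tuples -/
noncomputable def TLB {r : ℕ} (N : ℕ) (a b : Fin r → ℝ) (δ : ℝ) (m : ℕ) : ℝ :=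
  ∑ p ∈ (TUP N a b m).filter (BdT N δ), vonMangoldt (m / ∏ i, p i)

/-- expectation of a function of a random subset of `P`, `p` chosen with probability `g p` -/
noncomputable def Eg (P : Finset ℕ) (g : ℕ → ℝ) (F : Finset ℕ → ℝ) : ℝ :=
  ∑ A ∈ P.powerset, (∏ p ∈ A, g p) * (∏ p ∈ P \ A, (1 - g p)) * F A

/-! ## Interface with project SK (small conductors, helper24) -/

/-- **SCL** (primes) -/
def SCL_stmt : Prop := ∀ A B : ℕ, ∃ N₀ : ℕ, ∀ N : ℕ, N₀ ≤ N → ∀ M a R : ℕ, 0 < M → M ≤ 64 * N ^ 3 →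
  Nat.Coprime a M → 1 ≤ R → (R : ℝ) ≤ Real.log N ^ B →
  |∑ j ∈ Win N, vonMangoldt j * fN N j * ks R M a j -
      1 / (Nat.totient M : ℝ) * ∑ j ∈ Win N, vonMangoldt j * fN N j| ≤
    1 / (Nat.totient M : ℝ) * ((N : ℝ) ^ 2 / Real.log N ^ A)

/-- **SCT** (products) -/
def SCT_stmt : Prop := ∀ (r : ℕ) (a b : Fin r → ℝ), AdT a b → ∀ A B : ℕ, ∃ N₀ : ℕ, ∀ N : ℕ, N₀ ≤ N →
  ∀ M a' R : ℕ, 0 < M → M ≤ 64 * N ^ 3 → Nat.Coprime a' M → 1 ≤ R → (R : ℝ) ≤ Real.log N ^ B →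
  |∑ j ∈ Win N, TL N a b j * fN N j * ks R M a' j -
      1 / (Nat.totient M : ℝ) * ∑ j ∈ Win N, TL N a b j * fN N j| ≤
    1 / (Nat.totient M : ℝ) * ((N : ℝ) ^ 2 / Real.log N ^ A)

/-- **SCE** (edge function of the primes) -/
def SCE_stmt : Prop := ∀ A B C : ℕ, ∃ N₀ : ℕ, ∀ N : ℕ, N₀ ≤ N → ∀ M a R : ℕ, 0 < M → M ≤ 64 * N ^ 3 →
  Nat.Coprime a M → 1 ≤ R → (R : ℝ) ≤ Real.log N ^ B →
  |∑ j ∈ Win N, edg C N j * fN N j * ks R M a j -
      1 / (Nat.totient M : ℝ) * ∑ j ∈ Win N, edg C N j * fN N j| ≤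
    1 / (Nat.totient M : ℝ) * ((N : ℝ) ^ 2 / Real.log N ^ A)

/-- **PNW** (prime number theorem in every window, with the weight) -/
def PNW_stmt : Prop := ∀ A : ℕ, ∃ N₀ : ℕ, ∀ N : ℕ, N₀ ≤ N →
  |∑ j ∈ Win N, vonMangoldt j * fN N j - XN N| ≤ (N : ℝ) ^ 2 / Real.log N ^ A

end Pool.Agent.EC
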