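import Pool.Agent.helper62.W3.SpecA
import Pool.Agent.helper46.GD.BV2
import Pool.Agent.helper9.Tors.Divs
import Pool.Agent.helper85.BVP.Tau

/-! # Row we:TYI (MP_5628fe_nt) -/

set_option autoImplicit false

namespace Pool.Agent.EC

open Finset ArithmeticFunction
open Pool.Agent.CH (Win rgh dl eU Mo ClP ClB)
open GD (kp ks)

private lemma TYI_pow (a : ℕ) (c η : ℝ) (hη : 0 < η) : ∃ N₀ : ℕ, ∀ N : ℕ, N₀ ≤ N →
    c * Real.log N ^ a ≤ (N : ℝ) ^ η := by
  have h1 := isLittleO_log_rpow_rpow_atTop (a : ℝ) hη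
  have h2 := h1.bound (show (0 : ℝ) < 1 / (|c| + 1) by positivity)
  have h3 := (tendsto_natCast_atTop_atTop (R := ℝ)).eventually h2
  obtain ⟨N₀, hN₀⟩ := Filter.eventually_atTop.1 h3
  refine ⟨max N₀ 1, fun N hN => ?_⟩
  have h4 := hN₀ N (le_trans (le_max_left _ _) hN)
  have hN1 : (1 : ℝ) ≤ N := by exact_mod_cast le_trans (le_max_right _ _) hN
  have hL : 0 ≤ Real.log N := Real.log_nonneg hN1
  rw [Real.rpow_natCast, Real.norm_of_nonneg (pow_nonneg hL a),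
    Real.norm_of_nonneg (Real.rpow_nonneg (by positivity) η)] at h4
  have h5 : c * Real.log N ^ a ≤ (|c| + 1) * Real.log N ^ a :=
    mul_le_mul_of_nonneg_right (by linarith [le_abs_self c]) (pow_nonneg hL a)
  refine h5.trans ?_
  rw [one_div, ← div_eq_inv_mul, le_div_iff₀ (by positivity)] at h4
  linarith

private lemma TYI_card (S : Finset ℕ) (a b q : ℕ)
    (h1 : ∀ x ∈ S, a < x ∧ x ≤ b)
    (h2 : ∀ x ∈ S, ∀ y ∈ S, x ≡ y [MOD q]) : #S ≤ (b - a) / q + 1 := by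
  have h3 : #S ≤ #(range ((b - a) / q + 1)) := by
    apply Finset.card_le_card_of_injOn (fun x => (x - a) / q)
    · intro x hx
      have := h1 x hx
      simp only [coe_range, Set.mem_Iio]
      exact Nat.lt_succ_of_le (Nat.div_le_div_right (by omega))
    · intro x hx y hy hxy
      have hx1 := h1 x hx
      have hy1 := h1 y hy
      have h4 : x - a ≡ y - a [MOD q] := by
        apply Nat.ModEq.add_right_cancel' a
        rw [Nat.sub_add_cancel hx1.1.le, Nat.sub_add_cancel hy1.1.le]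
        exact h2 x hx y hy
      have h5 : x - a = y - a := by
        have h6 := Nat.div_add_mod (x - a) q
        have h7 := Nat.div_add_mod (y - a) q
        have h8 : (x - a) % q = (y - a) % q := h4
        simp only at hxy
        rw [← h6, ← h7, hxy, h8]
      omega
  simpa using h3

private lemma TYI_win (N : ℕ) (hN : 4 ≤ N) : (N + 1) ^ 3 - N ^ 3 ≤ 4 * N ^ 2 := by
  have h1 : (N + 1) ^ 3 = N ^ 3 + 3 * N ^ 2 + 3 * N + 1 := by ring
  have h2 : 3 * N + 1 ≤ N ^ 2 := by nlinarith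
  omega

private lemma TYI_win_sub (N : ℕ) (hN : 1 ≤ N) : Win N ⊆ Ioc 0 (64 * N ^ 3) := by
  intro j hj
  unfold Win at hj
  rw [mem_Ioc] at hj ⊢
  refine ⟨by omega, hj.2.trans ?_⟩
  calc (N + 1) ^ 3 ≤ (2 * N) ^ 3 := Nat.pow_le_pow_left (by omega) 3
    _ ≤ 64 * N ^ 3 := by
      rw [mul_pow]
      exact Nat.mul_le_mul_right _ (by norm_num)

/-- count, real form -/
private lemma TYI_count (N : ℕ) (hN : 4 ≤ N) (q : ℕ) (hq : 0 < q) (S : Finset ℕ) (hS : S ⊆ Win N)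
    (h2 : ∀ x ∈ S, ∀ y ∈ S, x ≡ y [MOD q]) : (#S : ℝ) ≤ 4 * (N : ℝ) ^ 2 / q + 1 := by
  have h1 := TYI_card S (N ^ 3) ((N + 1) ^ 3) q (fun x hx => by
    have := hS hx
    unfold Win at this
    rwa [mem_Ioc] at this) h2
  have hq0 : (0 : ℝ) < q := by exact_mod_cast hq
  calc (#S : ℝ) ≤ ((((N + 1) ^ 3 - N ^ 3) / q + 1 : ℕ) : ℝ) := by exact_mod_cast h1
    _ ≤ (((N + 1) ^ 3 - N ^ 3 : ℕ) : ℝ) / q + 1 := by
      push_cast
      have := @Nat.cast_div_le ℝ _ _ _ ((N + 1) ^ 3 - N ^ 3) q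
      simpa using this
    _ ≤ ((4 * N ^ 2 : ℕ) : ℝ) / q + 1 := by
      have := TYI_win N hN
      have h3 : (((N + 1) ^ 3 - N ^ 3 : ℕ) : ℝ) ≤ ((4 * N ^ 2 : ℕ) : ℝ) := by exact_mod_cast this
      have := div_le_div_of_nonneg_right h3 hq0.le
      linarith
    _ = 4 * (N : ℝ) ^ 2 / q + 1 := by push_cast; ring

/-- count of `k ∣ j`, `m ∣ j ± 6` -/
private lemma TYI_cnt2 (N : ℕ) (hN : 4 ≤ N) (k m : ℕ) (hk : 0 < k) (hm : 0 < m)
    (h30 : Nat.Coprime m 30) (h : ℕ → ℕ) (hh : (∀ j, h j = j + 6) ∨ (∀ j, h j = j - 6)) :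
    (#((Win N).filter fun j => k ∣ j ∧ m ∣ h j) : ℝ) ≤ 4 * (N : ℝ) ^ 2 / (k * m) + 1 := by
  have hwin : ∀ j ∈ Win N, 7 ≤ j := by
    intro j hj
    unfold Win at hj
    rw [mem_Ioc] at hj
    have : 4 ^ 3 ≤ N ^ 3 := Nat.pow_le_pow_left hN 3
    omega
  have h6 : ∀ j ∈ Win N, k ∣ j → m ∣ h j → Nat.gcd k m ∣ 6 := by
    intro j hj hkj hmj
    have h7 := hwin j hj
    have hg1 : Nat.gcd k m ∣ j := (Nat.gcd_dvd_left _ _).trans hkj
    have hg2 : Nat.gcd k m ∣ h j := (Nat.gcd_dvd_right _ _).trans hmj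
    rcases hh with h8 | h8
    · rw [h8] at hg2
      exact (Nat.dvd_add_right hg1).mp hg2
    · rw [h8] at hg2
      have := Nat.dvd_sub hg1 hg2
      have h9 : j - (j - 6) = 6 := by omega
      rwa [h9] at this
  by_cases hc : Nat.Coprime k m
  · have := TYI_count N hN (k * m) (Nat.mul_pos hk hm)
      ((Win N).filter fun j => k ∣ j ∧ m ∣ h j) (filter_subset _ _) (by
        intro x hx y hy
        rw [mem_filter] at hx hy
        have hx7 := hwin x hx.1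
        have hy7 := hwin y hy.1
        apply (Nat.modEq_and_modEq_iff_modEq_mul hc).1
        refine ⟨((Nat.modEq_zero_iff_dvd).2 hx.2.1).trans ((Nat.modEq_zero_iff_dvd).2 hy.2.1).symm, ?_⟩
        have h10 : h x ≡ h y [MOD m] :=
          ((Nat.modEq_zero_iff_dvd).2 hx.2.2).trans ((Nat.modEq_zero_iff_dvd).2 hy.2.2).symm
        rcases hh with h8 | h8
        · rw [h8, h8] at h10
          exact Nat.ModEq.add_right_cancel' 6 h10
        · rw [h8, h8] at h10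
          have := h10.add_right 6
          rwa [Nat.sub_add_cancel (by omega), Nat.sub_add_cancel (by omega)] at this)
    rw [Nat.cast_mul] at this
    exact this
  · have : (Win N).filter (fun j => k ∣ j ∧ m ∣ h j) = ∅ := by
      rw [filter_eq_empty_iff]
      rintro j hj ⟨h1, h2⟩
      have h3 := h6 j hj h1 h2
      apply hc
      have h4 : Nat.gcd k m ∣ Nat.gcd m 30 :=
        Nat.dvd_gcd (Nat.gcd_dvd_right _ _) (h3.trans (by norm_num))
      rw [h30] at h4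
      exact Nat.dvd_one.1 h4
    rw [this]
    simp only [card_empty, Nat.cast_zero]
    positivity

/-- sums over multiples -/
private lemma TYI_mult (N : ℕ) (hN : 1 ≤ N) (k : ℕ) (hk : 0 < k) (F : ℕ → ℝ)
    (hF : ∀ j, j ∉ Win N → F j = 0) :
    ∑ j ∈ Win N with k ∣ j, F j = ∑ g ∈ Ioc 0 (64 * N ^ 3), F (k * g) := by
  have h1 : ∑ g ∈ Ioc 0 (64 * N ^ 3), F (k * g) =
      ∑ g ∈ (Ioc 0 (64 * N ^ 3)).filter (fun g => k * g ∈ Win N), F (k * g) := by
    rw [sum_filter]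
    refine sum_congr rfl fun g _ => ?_
    split_ifs with h
    · rfl
    · exact hF _ h
  rw [h1]
  refine sum_nbij' (fun j => j / k) (fun g => k * g) ?_ ?_ ?_ ?_ ?_
  · intro j hj
    rw [mem_filter] at hj ⊢
    have h2 := TYI_win_sub N hN hj.1
    rw [mem_Ioc] at h2 ⊢
    have h3 : k * (j / k) = j := Nat.mul_div_cancel' hj.2
    refine ⟨⟨Nat.div_pos (Nat.le_of_dvd h2.1 hj.2) hk, (Nat.div_le_self _ _).trans h2.2⟩, ?_⟩
    rw [h3]
    exact hj.1
  · intro g hg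
    rw [mem_filter] at hg ⊢
    exact ⟨hg.2, Dvd.intro _ rfl⟩
  · intro j hj
    rw [mem_filter] at hj
    exact Nat.mul_div_cancel' hj.2
  · intro g _
    exact Nat.mul_div_cancel_left g hk
  · intro j hj
    rw [mem_filter] at hj
    rw [Nat.mul_div_cancel' hj.2]

/-- main term: one pair `(d,e)` and one modulus -/
private lemma TYI_one (hA : ABL_stmt) (hK : KKD_stmt) (N : ℕ) (hN : 2 ≤ N) (d e h m R M a : ℕ)
    (hd : 1 ≤ d) (he : 1 ≤ e) (hh : h ≤ 1) (hR : 1 ≤ R) (hM : M = 30 * m) (hm : 0 < m)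
    (hc : Nat.Coprime a M) :
    |∑ g ∈ Ioc 0 (64 * N ^ 3), Real.log ((e * g : ℕ) : ℝ) ^ h * (fN N (d * e * g) * KK R M a (d * e * g))| ≤
      (1 + Real.log e) * (4 * (1 + Real.log (64 * (N : ℝ) ^ 3)) * (2 * (60 * m * R) * #M.divisors)) := by
  have hM0 : 0 < M := by omega
  set I := Nat.clog 2 M with hI
  have h2I : M ≤ 2 ^ I := Nat.le_pow_clog (by norm_num) M
  have h2I' : 2 ^ I ≤ 2 * M := by
    have h3 : 2 ^ (I - 1) < M := Nat.pow_pred_clog_lt_self (by norm_num) (by omega)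
    have hIp : 0 < I := by
      apply Nat.clog_pos (by norm_num)
      omega
    have h4 : 2 ^ I = 2 * 2 ^ (I - 1) := by
      conv_lhs => rw [← Nat.succ_pred_eq_of_pos hIp]
      rw [pow_succ, mul_comm]
      rfl
    omega
  have hKK : ∀ j, KK R M a j = ∑ i ∈ range I, kp (2 ^ i * R) M a j := fun j =>
    hK M a R I j hM0 hc hR (h2I.trans (Nat.le_mul_of_pos_right _ hR))
  set Y := 4 * (1 + Real.log (64 * (N : ℝ) ^ 3)) with hY
  have hN1 : (1 : ℝ) ≤ (N : ℝ) := by exact_mod_cast (by omega : 1 ≤ N)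
  have hYp : 0 ≤ Y := by
    have : 0 ≤ Real.log (64 * (N : ℝ) ^ 3) := Real.log_nonneg (by
      have : (1 : ℝ) ≤ (N : ℝ) ^ 3 := one_le_pow₀ hN1
      linarith)
    positivity
  -- bound for the sums with kp
  have hkp : ∀ i ∈ range I, ∀ h' ≤ 1, |∑ g ∈ Ioc 0 (64 * N ^ 3),
      kp (2 ^ i * R) M a (d * e * g) * Real.log g ^ h' * fN N (d * e * g)| ≤
        Y * (2 * (2 ^ i * R : ℕ) * #M.divisors) := by
    intro i _ h' hh'
    have hR' : 1 ≤ 2 ^ i * R := Nat.one_le_iff_ne_zero.2 (by positivity)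
    exact hA N hN (d * e) h' (64 * N ^ 3) _ (fun g => kp (2 ^ i * R) M a (d * e * g))
      (Nat.one_le_iff_ne_zero.2 (by positivity)) hh' le_rfl
      (fun Z => (GD.BV2 (2 ^ i * R) M a hR' hM0).2 (d * e) Z)
  have hKs : ∀ h' ≤ 1, |∑ g ∈ Ioc 0 (64 * N ^ 3),
      KK R M a (d * e * g) * Real.log g ^ h' * fN N (d * e * g)| ≤
        Y * (2 * (60 * m * R) * #M.divisors) := by
    intro h' hh'
    have h1 : ∑ g ∈ Ioc 0 (64 * N ^ 3), KK R M a (d * e * g) * Real.log g ^ h' * fN N (d * e * g) =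
        ∑ i ∈ range I, ∑ g ∈ Ioc 0 (64 * N ^ 3),
          kp (2 ^ i * R) M a (d * e * g) * Real.log g ^ h' * fN N (d * e * g) := by
      rw [sum_comm]
      refine sum_congr rfl fun g _ => ?_
      rw [hKK, sum_mul, sum_mul]
    rw [h1]
    refine (abs_sum_le_sum_abs _ _).trans ?_
    refine (sum_le_sum fun i hi => hkp i hi h' hh').trans ?_
    rw [← mul_sum]
    refine mul_le_mul_of_nonneg_left ?_ hYp
    rw [← sum_mul]
    refine mul_le_mul_of_nonneg_right ?_ (Nat.cast_nonneg _)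
    rw [← mul_sum]
    refine mul_le_mul_of_nonneg_left ?_ (by norm_num)
    have h2 : ∑ i ∈ range I, ((2 ^ i * R : ℕ) : ℝ) = ((∑ i ∈ range I, 2 ^ i) * R : ℕ) := by
      push_cast
      rw [sum_mul]
    rw [h2]
    have h3 : (∑ i ∈ range I, 2 ^ i) * R ≤ 60 * m * R := by
      apply Nat.mul_le_mul_right
      have h4 : ∑ i ∈ range I, 2 ^ i < 2 ^ I := Nat.geomSum_lt (m := 2) (le_refl 2) (fun k hk => mem_range.1 hk)
      omega
    exact_mod_cast h3
  have hle : 0 ≤ Real.log e := Real.log_nonneg (by exact_mod_cast he)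
  interval_cases h
  · have h1 := hKs 0 (by norm_num)
    have h2 : ∑ g ∈ Ioc 0 (64 * N ^ 3), Real.log ((e * g : ℕ) : ℝ) ^ 0 * (fN N (d * e * g) * KK R M a (d * e * g)) =
        ∑ g ∈ Ioc 0 (64 * N ^ 3), KK R M a (d * e * g) * Real.log g ^ 0 * fN N (d * e * g) := by
      refine sum_congr rfl fun g _ => ?_
      ring
    rw [h2]
    refine h1.trans ?_
    have : 0 ≤ Y * (2 * (60 * (m : ℝ) * R) * #M.divisors) := (abs_nonneg _).trans h1
    nlinarith
  · have h1 := hKs 1 le_rfl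
    have h0 := hKs 0 (by norm_num)
    have h2 : ∑ g ∈ Ioc 0 (64 * N ^ 3), Real.log ((e * g : ℕ) : ℝ) ^ 1 * (fN N (d * e * g) * KK R M a (d * e * g)) =
        ∑ g ∈ Ioc 0 (64 * N ^ 3), KK R M a (d * e * g) * Real.log g ^ 1 * fN N (d * e * g) +
        Real.log e * ∑ g ∈ Ioc 0 (64 * N ^ 3), KK R M a (d * e * g) * Real.log g ^ 0 * fN N (d * e * g) := by
      rw [mul_sum, ← sum_add_distrib]
      refine sum_congr rfl fun g hg => ?_
      rw [mem_Ioc] at hg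
      have he0 : (e : ℝ) ≠ 0 := by exact_mod_cast (by omega : e ≠ 0)
      have hg0 : (g : ℝ) ≠ 0 := by exact_mod_cast (by omega : g ≠ 0)
      rw [Nat.cast_mul, Real.log_mul he0 hg0]
      ring
    rw [h2]
    refine (abs_add_le _ _).trans ?_
    rw [abs_mul, abs_of_nonneg hle]
    have h3 := mul_le_mul_of_nonneg_left h0 hle
    linarith [h1, h3]

private lemma TYI_rgh_mul (y : ℝ) (a b : ℕ) : rgh y (a * b) ↔ rgh y a ∧ rgh y b := by
  unfold Pool.Agent.CH.rgh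
  constructor
  · rintro ⟨h1, h2⟩
    exact ⟨⟨fun h => h1 (by rw [h, zero_mul]), fun p hp hpa => h2 p hp (hpa.mul_right b)⟩,
      ⟨fun h => h1 (by rw [h, mul_zero]), fun p hp hpb => h2 p hp (hpb.mul_left a)⟩⟩
  · rintro ⟨⟨h1, h2⟩, h3, h4⟩
    refine ⟨mul_ne_zero h1 h3, fun p hp hpab => ?_⟩
    rcases (hp.dvd_mul).1 hpab with h | h
    · exact h2 p hp h
    · exact h4 p hp h

open Classical in
private lemma TYI_dec (N U h : ℕ) (ξ : ℕ → ℝ) (j : ℕ) (hj : 1 ≤ j) :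
    tyI N U h ξ j = ∑ d ∈ (Ioc 0 U).filter (fun d => d ∣ j), (if rgh (yN N) d then ξ d else 0) *
      (Real.log ((j / d : ℕ) : ℝ) ^ h * (if rgh (yN N) (j / d) then 1 else 0)) := by
  unfold tyI
  have hset : j.divisors.filter (fun d => d ≤ U) = (Ioc 0 U).filter (fun d => d ∣ j) := by
    ext d
    simp only [mem_filter, Nat.mem_divisors, mem_Ioc]
    constructor
    · rintro ⟨⟨h1, _⟩, h3⟩
      exact ⟨⟨Nat.pos_of_dvd_of_pos h1 hj, h3⟩, h1⟩
    · rintro ⟨⟨_, h2⟩, h3⟩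
      exact ⟨⟨h3, by omega⟩, h2⟩
  split_ifs with hr
  · rw [hset]
    refine sum_congr rfl fun d hd => ?_
    rw [mem_filter] at hd
    have h1 : d * (j / d) = j := Nat.mul_div_cancel' hd.2
    have h2 := (TYI_rgh_mul (yN N) d (j / d)).1 (by rw [h1]; exact hr)
    rw [if_pos h2.1, if_pos h2.2, mul_one]
  · symm
    refine sum_eq_zero fun d hd => ?_
    rw [mem_filter] at hd
    have h1 : d * (j / d) = j := Nat.mul_div_cancel' hd.2
    by_cases h2 : rgh (yN N) d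
    · have h3 : ¬ rgh (yN N) (j / d) := fun h3 => hr (by
        have := (TYI_rgh_mul (yN N) d (j / d)).2 ⟨h2, h3⟩
        rwa [h1] at this)
      rw [if_neg h3, mul_zero, mul_zero]
    · rw [if_neg h2, zero_mul]

open Classical in
private lemma TYI_split (N U h : ℕ) (hN : 1 ≤ N) (ξ G : ℕ → ℝ) (D D' : Finset ℕ)
    (hD1 : ∀ e ∈ D, 1 ≤ e)
    (hD : ∀ c : ℕ, 1 ≤ c →
      (rgh (yN N) c → |1 - ∑ e ∈ D with e ∣ c, ((moebius e : ℤ) : ℝ)| ≤ #(D'.filter fun e => e ∣ c)) ∧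
      (¬ rgh (yN N) c → |∑ e ∈ D with e ∣ c, ((moebius e : ℤ) : ℝ)| ≤ #(D'.filter fun e => e ∣ c)))
    (hG : ∀ j, j ∉ Win N → G j = 0) :
    |∑ j ∈ Win N, tyI N U h ξ j * G j| ≤
      ∑ d ∈ Ioc 0 U, |ξ d| * ∑ e ∈ D,
        |∑ g ∈ Ioc 0 (64 * N ^ 3), Real.log ((e * g : ℕ) : ℝ) ^ h * G (d * e * g)| +
      ∑ d ∈ Ioc 0 U, |ξ d| * ∑ j ∈ Win N with d ∣ j, Real.log ((j / d : ℕ) : ℝ) ^ h *
        (#(D'.filter fun e => e ∣ j / d) : ℝ) * |G j| := by
  set ξ' : ℕ → ℝ := fun d => if rgh (yN N) d then ξ d else 0 with hξ'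
  set u : ℕ → ℝ := fun c => if rgh (yN N) c then 1 else 0 with hu
  have hξle : ∀ d, |ξ' d| ≤ |ξ d| := by
    intro d
    rw [hξ']
    simp only
    split_ifs
    · exact le_rfl
    · rw [abs_zero]; exact abs_nonneg _
  have e1 : ∑ j ∈ Win N, tyI N U h ξ j * G j =
      ∑ d ∈ Ioc 0 U, ξ' d * ∑ j ∈ Win N with d ∣ j, Real.log ((j / d : ℕ) : ℝ) ^ h * u (j / d) * G j := by
    have e2 : ∀ j ∈ Win N, tyI N U h ξ j * G j = ∑ d ∈ Ioc 0 U, if d ∣ j then
        ξ' d * (Real.log ((j / d : ℕ) : ℝ) ^ h * u (j / d) * G j) else 0 := by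
      intro j hj
      have hj1 : 1 ≤ j := (mem_Ioc.1 (TYI_win_sub N hN hj)).1
      rw [TYI_dec N U h ξ j hj1, sum_filter, sum_mul]
      refine sum_congr rfl fun d _ => ?_
      by_cases hdj : d ∣ j
      · rw [if_pos hdj, if_pos hdj]
        simp only [hξ', hu]
        ring
      · rw [if_neg hdj, if_neg hdj, zero_mul]
    rw [sum_congr rfl e2, sum_comm]
    refine sum_congr rfl fun d _ => ?_
    rw [sum_filter, mul_sum]
    refine sum_congr rfl fun j _ => ?_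
    split_ifs <;> ring
  have key : ∀ d ∈ Ioc 0 U,
      |∑ j ∈ Win N with d ∣ j, Real.log ((j / d : ℕ) : ℝ) ^ h * u (j / d) * G j| ≤
      ∑ e ∈ D, |∑ g ∈ Ioc 0 (64 * N ^ 3), Real.log ((e * g : ℕ) : ℝ) ^ h * G (d * e * g)| +
      ∑ j ∈ Win N with d ∣ j, Real.log ((j / d : ℕ) : ℝ) ^ h *
        (#(D'.filter fun e => e ∣ j / d) : ℝ) * |G j| := by
    intro d hd
    rw [mem_Ioc] at hd
    have hlog : ∀ c : ℕ, 0 ≤ Real.log ((c : ℕ) : ℝ) ^ h := fun c =>
      pow_nonneg (Real.log_natCast_nonneg c) h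
    have e3 : ∑ j ∈ Win N with d ∣ j, Real.log ((j / d : ℕ) : ℝ) ^ h * u (j / d) * G j =
        ∑ j ∈ Win N with d ∣ j, Real.log ((j / d : ℕ) : ℝ) ^ h *
          (∑ e ∈ D with e ∣ j / d, ((moebius e : ℤ) : ℝ)) * G j +
        ∑ j ∈ Win N with d ∣ j, Real.log ((j / d : ℕ) : ℝ) ^ h *
          (u (j / d) - ∑ e ∈ D with e ∣ j / d, ((moebius e : ℤ) : ℝ)) * G j := by
      rw [← sum_add_distrib]
      refine sum_congr rfl fun j _ => ?_
      ring
    rw [e3]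
    refine (abs_add_le _ _).trans (add_le_add ?_ ?_)
    · have e4 : ∑ j ∈ Win N with d ∣ j, Real.log ((j / d : ℕ) : ℝ) ^ h *
          (∑ e ∈ D with e ∣ j / d, ((moebius e : ℤ) : ℝ)) * G j =
          ∑ e ∈ D, ((moebius e : ℤ) : ℝ) *
            ∑ g ∈ Ioc 0 (64 * N ^ 3), Real.log ((e * g : ℕ) : ℝ) ^ h * G (d * e * g) := by
        have e5 : ∀ e ∈ D, ∑ g ∈ Ioc 0 (64 * N ^ 3), Real.log ((e * g : ℕ) : ℝ) ^ h * G (d * e * g) =
            ∑ j ∈ Win N with d * e ∣ j, Real.log ((j / d : ℕ) : ℝ) ^ h * G j := by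
          intro e he
          have he1 := hD1 e he
          rw [TYI_mult N hN (d * e) (Nat.mul_pos hd.1 he1)
            (fun j => Real.log ((j / d : ℕ) : ℝ) ^ h * G j) (fun j hj => by rw [hG j hj, mul_zero])]
          refine sum_congr rfl fun g _ => ?_
          rw [show d * e * g / d = e * g by rw [mul_assoc]; exact Nat.mul_div_cancel_left _ hd.1]
        have e7 : ∑ e ∈ D, ((moebius e : ℤ) : ℝ) *
            ∑ g ∈ Ioc 0 (64 * N ^ 3), Real.log ((e * g : ℕ) : ℝ) ^ h * G (d * e * g) =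
            ∑ e ∈ D, ((moebius e : ℤ) : ℝ) * ∑ j ∈ Win N with d * e ∣ j, Real.log ((j / d : ℕ) : ℝ) ^ h * G j :=
          sum_congr rfl fun e he => by rw [e5 e he]
        rw [e7]
        have e6 : ∀ j ∈ (Win N).filter (fun j => d ∣ j), Real.log ((j / d : ℕ) : ℝ) ^ h *
          (∑ e ∈ D with e ∣ j / d, ((moebius e : ℤ) : ℝ)) * G j =
            ∑ e ∈ D, if e ∣ j / d then ((moebius e : ℤ) : ℝ) * (Real.log ((j / d : ℕ) : ℝ) ^ h * G j) else 0 := by
          intro j _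
          rw [sum_filter, mul_sum, sum_mul]
          refine sum_congr rfl fun e _ => ?_
          split_ifs <;> ring
        rw [sum_congr rfl e6, sum_comm]
        refine sum_congr rfl fun e _ => ?_
        rw [← sum_filter, filter_filter, mul_sum]
        refine sum_congr ?_ fun _ _ => rfl
        ext j
        simp only [mem_filter]
        constructor
        · rintro ⟨h1, h2, h3⟩
          exact ⟨h1, (Nat.dvd_div_iff_mul_dvd h2).1 h3⟩
        · rintro ⟨h1, h2⟩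
          have h3 : d ∣ j := (Dvd.intro _ rfl).trans h2
          exact ⟨h1, h3, (Nat.dvd_div_iff_mul_dvd h3).2 h2⟩
      rw [e4]
      refine (abs_sum_le_sum_abs _ _).trans (sum_le_sum fun e _ => ?_)
      rw [abs_mul]
      have hmu : |((moebius e : ℤ) : ℝ)| ≤ 1 := by
        rw [← Int.cast_abs]
        exact_mod_cast abs_moebius_le_one
      calc |((moebius e : ℤ) : ℝ)| * |∑ g ∈ Ioc 0 (64 * N ^ 3), Real.log ((e * g : ℕ) : ℝ) ^ h * G (d * e * g)|
          ≤ 1 * |∑ g ∈ Ioc 0 (64 * N ^ 3), Real.log ((e * g : ℕ) : ℝ) ^ h * G (d * e * g)| :=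
            mul_le_mul_of_nonneg_right hmu (abs_nonneg _)
        _ = _ := one_mul _
    · refine (abs_sum_le_sum_abs _ _).trans (sum_le_sum fun j hj => ?_)
      rw [mem_filter] at hj
      rw [abs_mul, abs_mul, abs_of_nonneg (hlog _)]
      refine mul_le_mul_of_nonneg_right ?_ (abs_nonneg _)
      refine mul_le_mul_of_nonneg_left ?_ (hlog _)
      have hj1 : 1 ≤ j := (mem_Ioc.1 (TYI_win_sub N hN hj.1)).1
      have hc1 : 1 ≤ j / d := Nat.div_pos (Nat.le_of_dvd hj1 hj.2) hd.1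
      rw [hu]
      simp only
      split_ifs with hr
      · exact (hD (j / d) hc1).1 hr
      · rw [zero_sub, abs_neg]
        exact (hD (j / d) hc1).2 hr
  rw [e1]
  refine (abs_sum_le_sum_abs _ _).trans ?_
  rw [← sum_add_distrib]
  refine sum_le_sum fun d hd => ?_
  rw [abs_mul, ← mul_add]
  exact mul_le_mul (hξle d) (key d hd) (abs_nonneg _) (abs_nonneg _)

private lemma TYI_cop (r : ℕ → ℕ) (hr : ClP r ∨ ClB r) (m : ℕ) (hm : 0 < m) (h30 : Nat.Coprime m 30) :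
    Nat.Coprime (r m) (30 * m) := by
  have h3 : Nat.gcd (r m) m ∣ 6 → Nat.gcd (r m) m = 1 := by
    intro h3
    have h4 : Nat.gcd (r m) m ∣ Nat.gcd m 30 :=
      Nat.dvd_gcd (Nat.gcd_dvd_right _ _) (h3.trans (by norm_num))
    rw [h30] at h4
    exact Nat.dvd_one.mp h4
  rcases hr with hr | hr
  · obtain ⟨h1, h2⟩ := hr m hm h30
    refine Nat.Coprime.mul_right ?_ ?_
    · have h3 : Nat.gcd (r m) 30 = Nat.gcd 1 30 := h1.gcd_eq
      rw [Nat.Coprime, h3]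
      norm_num
    · apply h3
      have h4 : Nat.gcd (r m) m ∣ r m + 6 := (Nat.gcd_dvd_right _ _).trans h2
      exact (Nat.dvd_add_right (Nat.gcd_dvd_left _ _)).mp h4
  · obtain ⟨h1, h2⟩ := hr m hm h30
    refine Nat.Coprime.mul_right ?_ ?_
    · have h3 : Nat.gcd (r m) 30 = Nat.gcd 7 30 := h1.gcd_eq
      rw [Nat.Coprime, h3]
      norm_num
    · apply h3
      have h4 : Nat.gcd (r m) m = Nat.gcd 6 m := h2.gcd_eq
      rw [h4]
      exact Nat.gcd_dvd_left _ _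

/-- part 2, one pair `(d, e)` -/
private lemma TYI_pair (N : ℕ) (hN : 4 ≤ N) (Q V : ℝ) (hQ : 1 ≤ Q) (hV : 0 ≤ V) (d e : ℕ) (hd : 1 ≤ d) (he : 1 ≤ e)
    (h₀ : ℕ → ℕ) (hh : (∀ j, h₀ j = j + 6) ∨ (∀ j, h₀ j = j - 6)) :
    ∑ j ∈ Win N with d * e ∣ j, ((#((Mo Q).filter fun m => m ∣ h₀ j) : ℝ) + V) ≤
      4 * (N : ℝ) ^ 2 / (d * e) * (1 + Real.log Q + V) + (Q + V) := by
  have hde : 0 < d * e := Nat.mul_pos hd he
  have hde0 : (0 : ℝ) < (d : ℝ) * e := by exact_mod_cast hde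
  rw [sum_add_distrib]
  have hMo : ∀ m ∈ Mo Q, 1 ≤ m ∧ (m : ℝ) ≤ Q ∧ Nat.Coprime m 30 := by
    intro m hm
    unfold Mo at hm
    rw [mem_filter, mem_Icc] at hm
    exact ⟨hm.1.1, (Nat.le_floor_iff (by linarith)).1 hm.1.2, hm.2⟩
  have hcardMo : (#(Mo Q) : ℝ) ≤ Q := by
    have h1 : #(Mo Q) ≤ #(Icc 1 ⌊Q⌋₊) := card_le_card (filter_subset _ _)
    rw [Nat.card_Icc, Nat.add_sub_cancel] at h1
    exact le_trans (by exact_mod_cast h1) (Nat.floor_le (by linarith))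
  have h1 : ∑ j ∈ Win N with d * e ∣ j, (#((Mo Q).filter fun m => m ∣ h₀ j) : ℝ) ≤
      4 * (N : ℝ) ^ 2 / (d * e) * (1 + Real.log Q) + Q := by
    have h2 : ∑ j ∈ Win N with d * e ∣ j, (#((Mo Q).filter fun m => m ∣ h₀ j) : ℝ) =
        ∑ m ∈ Mo Q, (#((Win N).filter fun j => d * e ∣ j ∧ m ∣ h₀ j) : ℝ) := by
      have h3 : ∀ j ∈ (Win N).filter (fun j => d * e ∣ j),
          (#((Mo Q).filter fun m => m ∣ h₀ j) : ℝ) = ∑ m ∈ Mo Q, if m ∣ h₀ j then (1 : ℝ) else 0 := by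
        intro j _
        rw [← sum_filter, sum_const, nsmul_eq_mul, mul_one]
      rw [sum_congr rfl h3, sum_comm]
      refine sum_congr rfl fun m _ => ?_
      rw [← sum_filter, filter_filter, sum_const, nsmul_eq_mul, mul_one]
    rw [h2]
    calc ∑ m ∈ Mo Q, (#((Win N).filter fun j => d * e ∣ j ∧ m ∣ h₀ j) : ℝ)
        ≤ ∑ m ∈ Mo Q, (4 * (N : ℝ) ^ 2 / (d * e) * (1 / (m : ℝ)) + 1) := by
          refine sum_le_sum fun m hm => ?_
          obtain ⟨hm1, hm2, hm3⟩ := hMo m hm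
          have := TYI_cnt2 N hN (d * e) m hde hm1 hm3 h₀ hh
          have hm0 : (0 : ℝ) < m := by exact_mod_cast hm1
          refine this.trans (le_of_eq ?_)
          push_cast
          field_simp
      _ = 4 * (N : ℝ) ^ 2 / (d * e) * ∑ m ∈ Mo Q, 1 / (m : ℝ) + #(Mo Q) := by
          rw [sum_add_distrib, ← mul_sum, sum_const, nsmul_eq_mul, mul_one]
      _ ≤ 4 * (N : ℝ) ^ 2 / (d * e) * (1 + Real.log Q) + Q := by
          refine add_le_add (mul_le_mul_of_nonneg_left ?_ (by positivity)) hcardMo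
          calc ∑ m ∈ Mo Q, 1 / (m : ℝ) ≤ ∑ m ∈ Ioc 0 ⌊Q⌋₊, 1 / (m : ℝ) := by
                refine sum_le_sum_of_subset_of_nonneg ?_ fun _ _ _ => by positivity
                intro m hm
                unfold Mo at hm
                rw [mem_filter, mem_Icc] at hm
                rw [mem_Ioc]
                exact ⟨by omega, hm.1.2⟩
            _ ≤ 1 + Real.log (⌊Q⌋₊ : ℕ) := Pool.Agent.helper85.BVP.harm_le _
            _ ≤ 1 + Real.log Q := by
                have : Real.log ((⌊Q⌋₊ : ℕ) : ℝ) ≤ Real.log Q := by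
                  apply Real.log_le_log
                  · have : 1 ≤ ⌊Q⌋₊ := Nat.le_floor (by exact_mod_cast hQ)
                    exact_mod_cast this
                  · exact Nat.floor_le (by linarith)
                linarith
  have h4 : ∑ j ∈ Win N with d * e ∣ j, V ≤ (4 * (N : ℝ) ^ 2 / (d * e) + 1) * V := by
    rw [sum_const, nsmul_eq_mul]
    refine mul_le_mul_of_nonneg_right ?_ hV
    have := TYI_count N hN (d * e) hde ((Win N).filter fun j => d * e ∣ j) (filter_subset _ _) (by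
      intro x hx y hy
      rw [mem_filter] at hx hy
      exact ((Nat.modEq_zero_iff_dvd).2 hx.2).trans ((Nat.modEq_zero_iff_dvd).2 hy.2).symm)
    rw [Nat.cast_mul] at this
    exact this
  calc _ ≤ (4 * (N : ℝ) ^ 2 / (d * e) * (1 + Real.log Q) + Q) + (4 * (N : ℝ) ^ 2 / (d * e) + 1) * V :=
        add_le_add h1 h4
    _ = _ := by ring

theorem TYI (h1 : BPS_stmt) (h2 : ABL_stmt) (h3 : KKD_stmt) (h4 : KKS_stmt) (h5 : TRB_stmt) : TYI_stmt := by
  classical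
  intro ε A B C hε hε2
  obtain ⟨C₁, hC₁, -, hKKS⟩ := h4
  obtain ⟨Cτ, hCτ, hτ⟩ := Pool.Agent.helper9.Tors.divisor_bound (ε / 4) (by positivity)
  obtain ⟨N₁, hN₁⟩ := h1 (A + 2 * B + 6) (ε / 4) (by positivity)
  set c₂ : ℝ := 2 * (1 + C₁) with hc₂
  have hc₂p : 0 < c₂ := by positivity
  obtain ⟨N₂, hN₂⟩ := TYI_pow (A + B + C + 4) (2 * (144000 * Cτ)) (3 * ε / 2) (by positivity)
  obtain ⟨N₃, hN₃⟩ := TYI_pow (A + C + 2 * B + 4) (16 * (1 + c₂)) (3 / 8) (by norm_num)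
  obtain ⟨N₄, hN₄⟩ := TYI_pow C 1 1 one_pos
  refine ⟨max (max N₁ N₂) (max (max N₃ N₄) (max 4 ⌈Real.exp (10 + 192 * c₂)⌉₊)), fun N hN r hr R hR hRL h ξ hh hξ => ?_⟩
  have hNa : N₁ ≤ N := le_trans (le_trans (le_max_left _ _) (le_max_left _ _)) hN
  have hNb : N₂ ≤ N := le_trans (le_trans (le_max_right _ _) (le_max_left _ _)) hN
  have hNc : N₃ ≤ N := le_trans (le_trans (le_max_left _ _) (le_trans (le_max_left _ _) (le_max_right _ _))) hN
  have hNd : N₄ ≤ N := le_trans (le_trans (le_max_right _ _) (le_trans (le_max_left _ _) (le_max_right _ _))) hN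
  have hN4 : 4 ≤ N := le_trans (le_trans (le_max_left _ _) (le_trans (le_max_right _ _) (le_max_right _ _))) hN
  have hNe : ⌈Real.exp (10 + 192 * c₂)⌉₊ ≤ N :=
    le_trans (le_trans (le_max_right _ _) (le_trans (le_max_right _ _) (le_max_right _ _))) hN
  have hx1 : (1 : ℝ) ≤ (N : ℝ) := by exact_mod_cast (by omega : 1 ≤ N)
  have hx0 : (0 : ℝ) < (N : ℝ) := by linarith
  have hL : 10 + 192 * c₂ ≤ Real.log N := by
    rw [Real.le_log_iff_exp_le hx0]
    exact le_trans (Nat.le_ceil _) (by exact_mod_cast hNe)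
  set L := Real.log N with hLdef
  have hL10 : 10 ≤ L := by linarith [hc₂p]
  have hL1 : 1 ≤ L := by linarith
  have hL0 : 0 < L := by linarith
  obtain ⟨D, D', hDD, hD, hS⟩ := hN₁ N hNa
  have hP2 := hN₂ N hNb
  have hP3 := hN₃ N hNc
  have hP4 := hN₄ N hNd
  rw [Real.rpow_one, one_mul] at hP4
  set Q := (N : ℝ) ^ (1 / 2 - ε) with hQdef
  have hQ1 : 1 ≤ Q := Real.one_le_rpow hx1 (by linarith)
  have hQhalf : Q ≤ (N : ℝ) ^ (1 / 2 : ℝ) := Real.rpow_le_rpow_of_exponent_le hx1 (by linarith)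
  have hQx : Q ≤ N := hQhalf.trans (by
    calc (N : ℝ) ^ (1 / 2 : ℝ) ≤ (N : ℝ) ^ (1 : ℝ) := Real.rpow_le_rpow_of_exponent_le hx1 (by norm_num)
      _ = N := Real.rpow_one _)
  have hlogQ0 : 0 ≤ Real.log Q := Real.log_nonneg hQ1
  have hlogQ : Real.log Q ≤ L := Real.log_le_log (by linarith) hQx
  set U := UN C N with hUdef
  have hU : (U : ℝ) ≤ N * L ^ C := Nat.floor_le (by positivity)
  have hU2 : (U : ℝ) ≤ (N : ℝ) ^ 2 := by
    refine hU.trans ?_
    rw [pow_two]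
    exact mul_le_mul_of_nonneg_left hP4 hx0.le
  have hlog64 : Real.log (64 * (N : ℝ) ^ 3) ≤ 4 * L := by
    rw [Real.log_mul (by norm_num) (by positivity), Real.log_pow]
    have : Real.log 64 ≤ 5 := by
      have h6 : (64 : ℝ) = 2 ^ 6 := by norm_num
      rw [h6, Real.log_pow]
      have := Real.log_two_lt_d9
      push_cast
      linarith
    push_cast
    linarith
  have hlog640 : 0 ≤ Real.log (64 * (N : ℝ) ^ 3) := Real.log_nonneg (by
    have : (1 : ℝ) ≤ (N : ℝ) ^ 3 := one_le_pow₀ hx1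
    linarith)
  have hDle : ∀ e ∈ D, 1 ≤ e ∧ (e : ℝ) ≤ (N : ℝ) ^ (ε / 4) := fun e he => hDD e (mem_union_left _ he)
  have hDle' : ∀ e ∈ D', 1 ≤ e ∧ (e : ℝ) ≤ (N : ℝ) ^ (ε / 4) := fun e he => hDD e (mem_union_right _ he)
  have hcardle : ∀ T : Finset ℕ, (∀ e ∈ T, 1 ≤ e ∧ (e : ℝ) ≤ (N : ℝ) ^ (ε / 4)) → (#T : ℝ) ≤ (N : ℝ) ^ (ε / 4) := by
    intro T hT
    have h6 : T ⊆ Icc 1 ⌊(N : ℝ) ^ (ε / 4)⌋₊ := by
      intro e he
      rw [mem_Icc]
      exact ⟨(hT e he).1, Nat.le_floor (hT e he).2⟩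
    have h7 := card_le_card h6
    rw [Nat.card_Icc, Nat.add_sub_cancel] at h7
    exact le_trans (by exact_mod_cast h7) (Nat.floor_le (by positivity))
  have hloge : ∀ e ∈ D, 1 + Real.log e ≤ 2 * L := by
    intro e he
    have h6 : Real.log e ≤ Real.log N := by
      apply Real.log_le_log (by exact_mod_cast (hDle e he).1)
      refine (hDle e he).2.trans ?_
      calc (N : ℝ) ^ (ε / 4) ≤ (N : ℝ) ^ (1 : ℝ) := Real.rpow_le_rpow_of_exponent_le hx1 (by linarith)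
        _ = N := Real.rpow_one _
    linarith
  have hMo : ∀ m ∈ Mo Q, 1 ≤ m ∧ (m : ℝ) ≤ Q ∧ Nat.Coprime m 30 := by
    intro m hm
    unfold Mo at hm
    rw [mem_filter, mem_Icc] at hm
    exact ⟨hm.1.1, (Nat.le_floor_iff (by linarith)).1 hm.1.2, hm.2⟩
  have hcardMo : (#(Mo Q) : ℝ) ≤ Q := by
    have h1 : #(Mo Q) ≤ #(Icc 1 ⌊Q⌋₊) := card_le_card (filter_subset _ _)
    rw [Nat.card_Icc, Nat.add_sub_cancel] at h1
    exact le_trans (by exact_mod_cast h1) (Nat.floor_le (by linarith))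
  -- the class function
  obtain ⟨h₀, hh₀, hKs⟩ : ∃ h₀ : ℕ → ℕ, ((∀ j, h₀ j = j + 6) ∨ (∀ j, h₀ j = j - 6)) ∧
      ∀ j ∈ Win N, ∑ m ∈ Mo Q, |KK R (30 * m) (r m) j| ≤
        (#((Mo Q).filter fun m => m ∣ h₀ j) : ℝ) + C₁ * (R : ℝ) ^ 2 * (1 + Real.log Q) := by
    rcases hr with hr | hr
    · exact ⟨fun j => j + 6, Or.inl fun j => rfl, fun j _ => (hKKS Q R j r hQ1 hR).1 hr⟩
    · refine ⟨fun j => j - 6, Or.inr fun j => rfl, fun j hj => (hKKS Q R j r hQ1 hR).2 hr ?_⟩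
      unfold Win at hj
      rw [mem_Ioc] at hj
      have : 4 ^ 3 ≤ N ^ 3 := Nat.pow_le_pow_left hN4 3
      omega
  set V := C₁ * (R : ℝ) ^ 2 * (1 + Real.log Q) with hV
  have hV0 : 0 ≤ V := by positivity
  have hRL2 : (R : ℝ) ^ 2 ≤ L ^ (2 * B) := by
    rw [mul_comm, pow_mul]
    exact pow_le_pow_left₀ (Nat.cast_nonneg _) hRL 2
  have hL2B : 1 ≤ L ^ (2 * B) := one_le_pow₀ hL1
  have hV1 : 1 + Real.log Q + V ≤ c₂ * L ^ (2 * B + 1) := by
    have h6 : V ≤ C₁ * L ^ (2 * B) * (2 * L) :=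
      mul_le_mul (mul_le_mul_of_nonneg_left hRL2 hC₁.le) (by linarith) (by linarith) (by positivity)
    have h7 : 1 + Real.log Q ≤ 2 * L * L ^ (2 * B) := by
      calc 1 + Real.log Q ≤ 2 * L := by linarith
        _ = 2 * L * 1 := by ring
        _ ≤ 2 * L * L ^ (2 * B) := mul_le_mul_of_nonneg_left hL2B (by linarith)
    calc 1 + Real.log Q + V ≤ 2 * L * L ^ (2 * B) + C₁ * L ^ (2 * B) * (2 * L) := add_le_add h7 h6
      _ = c₂ * L ^ (2 * B + 1) := by rw [hc₂, pow_succ]; ring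
  -- the function G
  set G : ℕ → ℕ → ℝ := fun m j => fN N j * KK R (30 * m) (r m) j with hGdef
  have hG0 : ∀ m j, j ∉ Win N → G m j = 0 := by
    intro m j hj
    have h6 : fN N j = 0 := by
      by_contra h7
      have h8 := h5.2.1 N j (by omega) h7
      apply hj
      unfold Win
      rw [mem_Ioc]
      exact ⟨h8.1, h8.2.le⟩
    rw [hGdef]
    simp only
    rw [h6, zero_mul]
  have hGle : ∀ m j, |G m j| ≤ |KK R (30 * m) (r m) j| := by
    intro m j
    rw [hGdef]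
    simp only
    rw [abs_mul]
    have h6 := h5.1 N j
    calc |fN N j| * |KK R (30 * m) (r m) j| ≤ 1 * |KK R (30 * m) (r m) j| :=
          mul_le_mul_of_nonneg_right (by rw [abs_of_nonneg h6.1]; exact h6.2) (abs_nonneg _)
      _ = _ := one_mul _
  have hsum : ∀ m, ∑ j ∈ Win N, tyI N U h ξ j * fN N j * KK R (30 * m) (r m) j =
      ∑ j ∈ Win N, tyI N U h ξ j * G m j := fun m => sum_congr rfl fun j _ => by
        rw [hGdef]; ring
  have hsplit : ∀ m ∈ Mo Q, |∑ j ∈ Win N, tyI N U h ξ j * fN N j * KK R (30 * m) (r m) j| ≤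
      ∑ d ∈ Ioc 0 U, |ξ d| * ∑ e ∈ D,
        |∑ g ∈ Ioc 0 (64 * N ^ 3), Real.log ((e * g : ℕ) : ℝ) ^ h * G m (d * e * g)| +
      ∑ d ∈ Ioc 0 U, |ξ d| * ∑ j ∈ Win N with d ∣ j, Real.log ((j / d : ℕ) : ℝ) ^ h *
        (#(D'.filter fun e => e ∣ j / d) : ℝ) * |G m j| := by
    intro m _
    rw [hsum]
    exact TYI_split N U h (by omega) ξ (G m) D D' (fun e he => (hDle e he).1) hD (hG0 m)
  refine (sum_le_sum hsplit).trans ?_
  rw [sum_add_distrib]
  have hLB : (R : ℝ) ≤ L ^ B := hRL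
  -- part 1
  have part1 : ∑ m ∈ Mo Q, ∑ d ∈ Ioc 0 U, |ξ d| * ∑ e ∈ D,
      |∑ g ∈ Ioc 0 (64 * N ^ 3), Real.log ((e * g : ℕ) : ℝ) ^ h * G m (d * e * g)| ≤
      (N : ℝ) ^ 2 / L ^ A / 2 := by
    have hb : ∀ m ∈ Mo Q, ∀ d ∈ Ioc 0 U, ∀ e ∈ D,
        |∑ g ∈ Ioc 0 (64 * N ^ 3), Real.log ((e * g : ℕ) : ℝ) ^ h * G m (d * e * g)| ≤
          144000 * Cτ * L ^ (B + 2) * Q * (N : ℝ) ^ (ε / 4) := by
      intro m hm d hd e he
      obtain ⟨hm1, hm2, hm3⟩ := hMo m hm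
      rw [mem_Ioc] at hd
      have h6 := TYI_one h2 h3 N (by omega) d e h m R (30 * m) (r m) hd.1 (hDle e he).1 hh hR rfl hm1
        (TYI_cop r hr m hm1 hm3)
      refine h6.trans ?_
      have h7 : (#(30 * m).divisors : ℝ) ≤ 30 * Cτ * (N : ℝ) ^ (ε / 4) := by
        refine (hτ (30 * m) (by omega)).trans ?_
        have h8 : ((30 * m : ℕ) : ℝ) ^ (ε / 4) ≤ 30 * (N : ℝ) ^ (ε / 4) := by
          push_cast
          rw [Real.mul_rpow (by norm_num) (Nat.cast_nonneg _)]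
          have h9 : (30 : ℝ) ^ (ε / 4) ≤ 30 := by
            calc (30 : ℝ) ^ (ε / 4) ≤ (30 : ℝ) ^ (1 : ℝ) :=
                  Real.rpow_le_rpow_of_exponent_le (by norm_num) (by linarith)
              _ = 30 := Real.rpow_one _
          exact mul_le_mul h9 (Real.rpow_le_rpow (Nat.cast_nonneg _) (hm2.trans hQx) (by positivity))
            (by positivity) (by norm_num)
        calc Cτ * ((30 * m : ℕ) : ℝ) ^ (ε / 4) ≤ Cτ * (30 * (N : ℝ) ^ (ε / 4)) :=
              mul_le_mul_of_nonneg_left h8 hCτ.le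
          _ = _ := by ring
      have hm0 : (0 : ℝ) ≤ m := Nat.cast_nonneg _
      calc (1 + Real.log e) * (4 * (1 + Real.log (64 * (N : ℝ) ^ 3)) * (2 * (60 * (m : ℝ) * R) * #(30 * m).divisors))
          ≤ (2 * L) * (4 * (5 * L) * (2 * (60 * Q * L ^ B) * (30 * Cτ * (N : ℝ) ^ (ε / 4)))) := by
            gcongr
            · exact hloge e he
            · linarith
        _ = 144000 * Cτ * L ^ (B + 2) * Q * (N : ℝ) ^ (ε / 4) := by ring
    have hξ' : ∀ d ∈ Ioc 0 U, |ξ d| ≤ L ^ 2 := fun d hd => hξ d (mem_Ioc.1 hd).2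
    calc ∑ m ∈ Mo Q, ∑ d ∈ Ioc 0 U, |ξ d| * ∑ e ∈ D,
          |∑ g ∈ Ioc 0 (64 * N ^ 3), Real.log ((e * g : ℕ) : ℝ) ^ h * G m (d * e * g)|
        ≤ ∑ m ∈ Mo Q, ∑ d ∈ Ioc 0 U, L ^ 2 * ∑ e ∈ D, 144000 * Cτ * L ^ (B + 2) * Q * (N : ℝ) ^ (ε / 4) := by
          refine sum_le_sum fun m hm => sum_le_sum fun d hd => ?_
          exact mul_le_mul (hξ' d hd) (sum_le_sum fun e he => hb m hm d hd e he)
            (sum_nonneg fun _ _ => abs_nonneg _) (by positivity)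
      _ = #(Mo Q) * (U * (L ^ 2 * (#D * (144000 * Cτ * L ^ (B + 2) * Q * (N : ℝ) ^ (ε / 4))))) := by
          simp only [sum_const, nsmul_eq_mul, Nat.card_Ioc, Nat.sub_zero]
      _ ≤ Q * ((N * L ^ C) * (L ^ 2 * ((N : ℝ) ^ (ε / 4) * (144000 * Cτ * L ^ (B + 2) * Q * (N : ℝ) ^ (ε / 4))))) := by
          gcongr
          exact hcardle D hDle
      _ = (144000 * Cτ) * L ^ (B + C + 4) * (Q * Q * N * ((N : ℝ) ^ (ε / 4) * (N : ℝ) ^ (ε / 4))) := by ring
      _ = (144000 * Cτ) * L ^ (B + C + 4) * ((N : ℝ) ^ 2 / (N : ℝ) ^ (3 * ε / 2)) := by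
          congr 1
          have e1 : (N : ℝ) = (N : ℝ) ^ (1 : ℝ) := (Real.rpow_one _).symm
          rw [hQdef]
          have e2 : (N : ℝ) ^ 2 = (N : ℝ) ^ (2 : ℝ) := by norm_num
          rw [e2, ← Real.rpow_sub hx0]
          conv_lhs => rw [← Real.rpow_add hx0, ← Real.rpow_add hx0]
          rw [show (N : ℝ) ^ (1 / 2 - ε + (1 / 2 - ε)) * (N : ℝ) = (N : ℝ) ^ (1 / 2 - ε + (1 / 2 - ε)) * (N : ℝ) ^ (1 : ℝ) by
            rw [Real.rpow_one], ← Real.rpow_add hx0, ← Real.rpow_add hx0]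
          congr 1
          ring
      _ ≤ (N : ℝ) ^ 2 / L ^ A / 2 := by
          have hNp : 0 < (N : ℝ) ^ (3 * ε / 2) := Real.rpow_pos_of_pos hx0 _
          have hLA : 0 < L ^ A := pow_pos hL0 A
          rw [← mul_div_assoc, div_div, div_le_div_iff₀ hNp (by positivity)]
          have h6 : 144000 * Cτ * L ^ (B + C + 4) * (N : ℝ) ^ 2 * (L ^ A * 2) =
              (N : ℝ) ^ 2 * (2 * (144000 * Cτ) * L ^ (A + B + C + 4)) := by ring
          rw [h6]
          exact mul_le_mul_of_nonneg_left hP2 (by positivity)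
  -- part 2
  have part2 : ∑ m ∈ Mo Q, ∑ d ∈ Ioc 0 U, |ξ d| * ∑ j ∈ Win N with d ∣ j, Real.log ((j / d : ℕ) : ℝ) ^ h *
        (#(D'.filter fun e => e ∣ j / d) : ℝ) * |G m j| ≤ (N : ℝ) ^ 2 / L ^ A / 2 := by
    have hlogj : ∀ d, ∀ j ∈ Win N, Real.log ((j / d : ℕ) : ℝ) ^ h ≤ 4 * L := by
      intro d j hj
      have h6 : Real.log ((j / d : ℕ) : ℝ) ≤ 4 * L := by
        have h7 := mem_Ioc.1 (TYI_win_sub N (by omega) hj)
        rcases Nat.eq_zero_or_pos (j / d) with h8 | h8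
        · rw [h8]; simp; positivity
        · refine le_trans (Real.log_le_log (by exact_mod_cast h8) ?_) hlog64
          have : j / d ≤ 64 * N ^ 3 := (Nat.div_le_self _ _).trans h7.2
          exact_mod_cast this
      interval_cases h
      · simp; linarith
      · simpa using h6
    have hswap : ∑ m ∈ Mo Q, ∑ d ∈ Ioc 0 U, |ξ d| * ∑ j ∈ Win N with d ∣ j, Real.log ((j / d : ℕ) : ℝ) ^ h *
        (#(D'.filter fun e => e ∣ j / d) : ℝ) * |G m j| ≤
        ∑ d ∈ Ioc 0 U, L ^ 2 * (4 * L * ∑ e ∈ D', ∑ j ∈ Win N with d * e ∣ j,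
          ((#((Mo Q).filter fun m => m ∣ h₀ j) : ℝ) + V)) := by
      rw [sum_comm]
      refine sum_le_sum fun d hd => ?_
      have hd1 := mem_Ioc.1 hd
      rw [← mul_sum]
      refine mul_le_mul (hξ d hd1.2) ?_ ?_ (by positivity)
      · rw [sum_comm]
        calc ∑ j ∈ Win N with d ∣ j, ∑ m ∈ Mo Q, Real.log ((j / d : ℕ) : ℝ) ^ h *
              (#(D'.filter fun e => e ∣ j / d) : ℝ) * |G m j|
            ≤ ∑ j ∈ Win N with d ∣ j, 4 * L * ((#(D'.filter fun e => e ∣ j / d) : ℝ) *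
                ((#((Mo Q).filter fun m => m ∣ h₀ j) : ℝ) + V)) := by
              refine sum_le_sum fun j hj => ?_
              rw [mem_filter] at hj
              rw [← mul_sum, mul_assoc]
              refine mul_le_mul (hlogj d j hj.1) ?_ (by positivity) (by positivity)
              refine mul_le_mul_of_nonneg_left ?_ (Nat.cast_nonneg _)
              exact (sum_le_sum fun m _ => hGle m j).trans (hKs j hj.1)
          _ = 4 * L * ∑ e ∈ D', ∑ j ∈ Win N with d * e ∣ j,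
                ((#((Mo Q).filter fun m => m ∣ h₀ j) : ℝ) + V) := by
              rw [← mul_sum]
              congr 1
              have h6 : ∀ j ∈ (Win N).filter (fun j => d ∣ j), (#(D'.filter fun e => e ∣ j / d) : ℝ) *
                  ((#((Mo Q).filter fun m => m ∣ h₀ j) : ℝ) + V) =
                  ∑ e ∈ D', if e ∣ j / d then ((#((Mo Q).filter fun m => m ∣ h₀ j) : ℝ) + V) else 0 := by
                intro j _
                rw [← sum_filter, sum_const, nsmul_eq_mul]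
              rw [sum_congr rfl h6, sum_comm]
              refine sum_congr rfl fun e _ => ?_
              rw [← sum_filter, filter_filter]
              refine sum_congr ?_ fun _ _ => rfl
              ext j
              simp only [mem_filter]
              constructor
              · rintro ⟨h1, h2, h3⟩
                exact ⟨h1, (Nat.dvd_div_iff_mul_dvd h2).1 h3⟩
              · rintro ⟨h1, h2⟩
                have h3 : d ∣ j := (Dvd.intro _ rfl).trans h2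
                exact ⟨h1, h3, (Nat.dvd_div_iff_mul_dvd h3).2 h2⟩
      · exact sum_nonneg fun m _ => sum_nonneg fun j _ => mul_nonneg (mul_nonneg
          (pow_nonneg (Real.log_natCast_nonneg _) h) (Nat.cast_nonneg _)) (abs_nonneg _)
    refine hswap.trans ?_
    set W₀ := c₂ * L ^ (2 * B + 1) with hW₀
    have hW0 : 0 ≤ W₀ := by positivity
    have hVW : V ≤ W₀ := by linarith
    have hQV : Q + V ≤ (1 + c₂) * L ^ (2 * B + 1) * (N : ℝ) ^ (1 / 2 : ℝ) := by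
      have hsq1 : 1 ≤ (N : ℝ) ^ (1 / 2 : ℝ) := Real.one_le_rpow hx1 (by norm_num)
      have hLp1 : 1 ≤ L ^ (2 * B + 1) := one_le_pow₀ hL1
      calc Q + V ≤ 1 * 1 * (N : ℝ) ^ (1 / 2 : ℝ) + c₂ * L ^ (2 * B + 1) * 1 := by linarith
        _ ≤ 1 * L ^ (2 * B + 1) * (N : ℝ) ^ (1 / 2 : ℝ) + c₂ * L ^ (2 * B + 1) * (N : ℝ) ^ (1 / 2 : ℝ) := by
          gcongr
        _ = _ := by ring
    have hharm : ∑ d ∈ Ioc 0 U, 1 / (d : ℝ) ≤ 3 * L := by
      refine (Pool.Agent.helper85.BVP.harm_le U).trans ?_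
      have : Real.log U ≤ 2 * L := by
        rcases Nat.eq_zero_or_pos U with h8 | h8
        · rw [h8]; simp; positivity
        · calc Real.log U ≤ Real.log ((N : ℝ) ^ 2) := Real.log_le_log (by exact_mod_cast h8) hU2
            _ = 2 * L := by rw [Real.log_pow, ← hLdef]; norm_num
      linarith
    calc ∑ d ∈ Ioc 0 U, L ^ 2 * (4 * L * ∑ e ∈ D', ∑ j ∈ Win N with d * e ∣ j,
          ((#((Mo Q).filter fun m => m ∣ h₀ j) : ℝ) + V))
        ≤ ∑ d ∈ Ioc 0 U, L ^ 2 * (4 * L * ∑ e ∈ D', (4 * (N : ℝ) ^ 2 * W₀ * ((1 / (d : ℝ)) * (1 / e)) +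
            (1 + c₂) * L ^ (2 * B + 1) * (N : ℝ) ^ (1 / 2 : ℝ))) := by
          refine sum_le_sum fun d hd => ?_
          have hd1 := mem_Ioc.1 hd
          have hd0 : (0 : ℝ) < d := by exact_mod_cast hd1.1
          refine mul_le_mul_of_nonneg_left (mul_le_mul_of_nonneg_left ?_ (by positivity)) (by positivity)
          refine sum_le_sum fun e he => ?_
          have he0 : (0 : ℝ) < e := by exact_mod_cast (hDle' e he).1
          refine (TYI_pair N hN4 Q V hQ1 hV0 d e hd1.1 (hDle' e he).1 h₀ hh₀).trans ?_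
          refine add_le_add ?_ hQV
          calc 4 * (N : ℝ) ^ 2 / (d * e) * (1 + Real.log Q + V) ≤ 4 * (N : ℝ) ^ 2 / (d * e) * W₀ :=
                mul_le_mul_of_nonneg_left hV1 (by positivity)
            _ = 4 * (N : ℝ) ^ 2 * W₀ * ((1 / (d : ℝ)) * (1 / e)) := by field_simp
      _ = 4 * L ^ 3 * (4 * (N : ℝ) ^ 2 * W₀ * ((∑ d ∈ Ioc 0 U, 1 / (d : ℝ)) * ∑ e ∈ D', 1 / (e : ℝ)) +
            U * (#D' * ((1 + c₂) * L ^ (2 * B + 1) * (N : ℝ) ^ (1 / 2 : ℝ)))) := by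
          have e9 : ∀ d ∈ Ioc 0 U, L ^ 2 * (4 * L * ∑ e ∈ D', (4 * (N : ℝ) ^ 2 * W₀ * ((1 / (d : ℝ)) * (1 / e)) +
              (1 + c₂) * L ^ (2 * B + 1) * (N : ℝ) ^ (1 / 2 : ℝ))) =
              4 * L ^ 3 * (4 * (N : ℝ) ^ 2 * W₀ * ∑ e ∈ D', 1 / (e : ℝ)) * (1 / (d : ℝ)) +
                4 * L ^ 3 * (#D' * ((1 + c₂) * L ^ (2 * B + 1) * (N : ℝ) ^ (1 / 2 : ℝ))) := by
            intro d _
            rw [sum_add_distrib, ← mul_sum, ← mul_sum, sum_const, nsmul_eq_mul]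
            ring
          rw [sum_congr rfl e9, sum_add_distrib, ← mul_sum, sum_const, nsmul_eq_mul, Nat.card_Ioc, Nat.sub_zero]
          ring
      _ ≤ 4 * L ^ 3 * (4 * (N : ℝ) ^ 2 * W₀ * ((3 * L) * (1 / L ^ (A + 2 * B + 6))) +
            (N * L ^ C) * ((N : ℝ) ^ (ε / 4) * ((1 + c₂) * L ^ (2 * B + 1) * (N : ℝ) ^ (1 / 2 : ℝ)))) := by
          gcongr
          exact hcardle D' hDle'
      _ = 48 * c₂ * (N : ℝ) ^ 2 * L ^ (2 * B + 5) / L ^ (A + 2 * B + 6) +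
            4 * (1 + c₂) * L ^ (C + 2 * B + 4) * (N * (N : ℝ) ^ (ε / 4) * (N : ℝ) ^ (1 / 2 : ℝ)) := by
          rw [hW₀]
          ring
      _ ≤ (N : ℝ) ^ 2 / L ^ A / 4 + (N : ℝ) ^ 2 / L ^ A / 4 := by
          refine add_le_add ?_ ?_
          · have h6 : L ^ (A + 2 * B + 6) = L ^ A * L ^ (2 * B + 5) * L := by ring
            have hp : 0 < L ^ A := pow_pos hL0 A
            have hp2 : 0 < L ^ (2 * B + 5) := pow_pos hL0 _
            rw [h6, div_div, div_le_div_iff₀ (by positivity) (by positivity)]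
            have h7 : 192 * c₂ ≤ L := by linarith
            calc 48 * c₂ * (N : ℝ) ^ 2 * L ^ (2 * B + 5) * (L ^ A * 4) =
                  (N : ℝ) ^ 2 * (L ^ A * L ^ (2 * B + 5)) * (192 * c₂) := by ring
              _ ≤ (N : ℝ) ^ 2 * (L ^ A * L ^ (2 * B + 5)) * L := mul_le_mul_of_nonneg_left h7 (by positivity)
              _ = _ := by ring
          · have h6 : (N : ℝ) * (N : ℝ) ^ (ε / 4) * (N : ℝ) ^ (1 / 2 : ℝ) ≤ (N : ℝ) ^ 2 / (N : ℝ) ^ (3 / 8 : ℝ) := by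
              have e2 : (N : ℝ) ^ 2 = (N : ℝ) ^ (2 : ℝ) := by norm_num
              rw [e2, ← Real.rpow_sub hx0]
              calc (N : ℝ) * (N : ℝ) ^ (ε / 4) * (N : ℝ) ^ (1 / 2 : ℝ) =
                    (N : ℝ) ^ (1 : ℝ) * (N : ℝ) ^ (ε / 4) * (N : ℝ) ^ (1 / 2 : ℝ) := by rw [Real.rpow_one]
                _ = (N : ℝ) ^ (1 + ε / 4 + 1 / 2) := by rw [← Real.rpow_add hx0, ← Real.rpow_add hx0]
                _ ≤ (N : ℝ) ^ (2 - 3 / 8 : ℝ) := Real.rpow_le_rpow_of_exponent_le hx1 (by linarith)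
            have hNp : 0 < (N : ℝ) ^ (3 / 8 : ℝ) := Real.rpow_pos_of_pos hx0 _
            have hLA : 0 < L ^ A := pow_pos hL0 A
            calc 4 * (1 + c₂) * L ^ (C + 2 * B + 4) * (N * (N : ℝ) ^ (ε / 4) * (N : ℝ) ^ (1 / 2 : ℝ))
                ≤ 4 * (1 + c₂) * L ^ (C + 2 * B + 4) * ((N : ℝ) ^ 2 / (N : ℝ) ^ (3 / 8 : ℝ)) :=
                  mul_le_mul_of_nonneg_left h6 (by positivity)
              _ ≤ (N : ℝ) ^ 2 / L ^ A / 4 := by
                rw [← mul_div_assoc, div_div, div_le_div_iff₀ hNp (by positivity)]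
                have h7 : 4 * (1 + c₂) * L ^ (C + 2 * B + 4) * (N : ℝ) ^ 2 * (L ^ A * 4) =
                    (N : ℝ) ^ 2 * (16 * (1 + c₂) * L ^ (A + C + 2 * B + 4)) := by ring
                rw [h7]
                exact mul_le_mul_of_nonneg_left hP3 (by positivity)
      _ = (N : ℝ) ^ 2 / L ^ A / 2 := by ring
  linarith [part1, part2]

end Pool.Agent.EC
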