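import Pool.Agent.helper50.W3.TRB
import Pool.Agent.helper77.W3.TRV
import Pool.Agent.helper89.W3.ABL
import Pool.Agent.helper27.W3.KKD
import Pool.Agent.helper81.W3.KKS
import Pool.Agent.helper75.W3.BIL
import Pool.Agent.helper54.W3.BPS
import Pool.Agent.helper85.W3.VBD
import Pool.Agent.helper27.W3.TII
import Pool.Agent.helper27.W3.VID
import Pool.Agent.helper63.W3.LCE
import Pool.Agent.helper27.W3.NRP
import Pool.Agent.helper27.W3.SMP
import Pool.Agent.helper88.W3.EXW
import Pool.Agent.helper77.W3.BVE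
import Pool.Agent.helper49.W3.MTA
import Pool.Agent.helper11.W3.PRM
import Pool.Agent.helper62.W3.TYI
import Pool.Agent.helper62.W3.BIM

/-! # Project EC (MP_5628fe_nt), block L: assembly -/

set_option autoImplicit false

namespace Pool.Agent.EC

theorem TRB_all : TRB_stmt := TRB
theorem TRV_all : TRV_stmt := TRV
theorem ABL_all : ABL_stmt := ABL TRB TRV
theorem KKD_all : KKD_stmt := KKD
theorem KKS_all : KKS_stmt := KKS
theorem BIL_all : BIL_stmt := BIL
theorem BIM_all : BIM_stmt := BIM BIL TRB
theorem VBD_all : VBD_stmt := VBD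
theorem TII_all : TII_stmt := TII BIM_all VBD
theorem VID_all : VID_stmt := VID VBD
theorem BPS_all : BPS_stmt := BPS
theorem TYI_all : TYI_stmt := TYI BPS ABL_all KKD KKS TRB
theorem LCE_all : LCE_stmt := LCE VID_all TYI_all TII_all KKD VBD
theorem NRP_all : NRP_stmt := NRP
theorem EXW_all : EXW_stmt := EXW
theorem MTA_all : MTA_stmt := MTA

/-- primes in every window, from the small conductors and the edges -/
theorem PRM_of (h1 : SCL_stmt) (h2 : SCE_stmt) (h3 : PNW_stmt) (h4 : EDP_stmt) : PRM_stmt :=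
  PRM (BVE LCE_all (SMP h1 h2 NRP KKS TRB)) h4 h3 MTA EXW NRP TRB

end Pool.Agent.EC
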