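import Pool.Agent.helper62.W3.Defs

/-!
# Project EC (MP_5628fe_nt), engine, block L: type I and type II sums, large conductors, primes, in EVERY window

RULES.  File `Pool/Agent/<seat>/W3/XX.lean`, `import Pool.Agent.helper62.W3.SpecA`, `namespace Pool.Agent.EC`,
`theorem XX (h1 : YY_stmt) ... : XX_stmt` exactly as in the lock note (any other statement of this file may be added as a
hypothesis, no circles), auxiliary lemmas prefixed `XX_` and private where possible.  Never change this file.  If a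
statement is wrong tell helper62 at once.  `L = log N`, `Win N = (N³, (N+1)³]`, `fN` = triangle weight with support inside
the window, `kp`, `ks` of helper8/GD/Defs.lean.
Library: `Pool.Agent.helper85.BVP` (Tau.lean: `tau`, `sum_tau_sq_le`, `harm_le`; Boxes.lean: `abs_beta_le`, `beta_eq_zero`,
`abs_Mr_le`; Vaughan.lean: `vaughan`, `conv_sum`), `GD.BV1 : GD.BV1_stmt` (helper20/GD/BV1.lean, `BV1_sum_inv`), `GD.BV2`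
(helper46/GD/BV2.lean), `BV_orth`, `BV_omega`, `BV_log2` (helper70/GD/BV.lean), `GD.BV4_card` (number of characters of conductor
`≤ R` is `≤ R²`; used in helper28/CH/SC.lean), `Pool.Agent.helper9.Tors.divisor_bound` (helper9/Tors/Divs.lean),
`Pool.Agent.CH.MER` (helper44/CH/MER.lean; Mertens, upper bound), `Pool.Agent.CH.RC` (helper40/CH/RC.lean).
-/

set_option autoImplicit false

namespace Pool.Agent.EC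

open Finset ArithmeticFunction
open Pool.Agent.CH (Win rgh dl eU Mo ClP ClB)
open Pool.Agent.helper85.BVP (trunc beta Mr Zr)
open GD (kp ks)

/-! ## The weight -/

/-- **TRB** (short, medium).  `fN N j ≠ 0` iff `|log j - v| < 1/N`, `v = 3 log N + 5/(4N)`, i.e.
`3 log N + 1/(4N) < log j < 3 log N + 9/(4N)`; `log(1 + 1/N) ≥ 1/N - 1/(2N²)` and `9/(4N) ≤ 3/N - 3/(2N²)` for `N ≥ 2`
(for `j = 0` Lean's `log 0 = 0` and `N v > 1`).  `XN ≤ #(Win N) = 3N²+3N+1 ≤ 4N²`. -/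
def TRB_stmt : Prop :=
  (∀ N j : ℕ, 0 ≤ fN N j ∧ fN N j ≤ 1) ∧
  (∀ N j : ℕ, 2 ≤ N → fN N j ≠ 0 → N ^ 3 < j ∧ j < (N + 1) ^ 3) ∧
  ∀ N : ℕ, 4 ≤ N → 0 ≤ XN N ∧ XN N ≤ 4 * (N : ℝ) ^ 2

/-- **TRV** (short, medium).  Total variation along a monotone sequence.  With `T₁ t = min 1 (max 0 ((t - v)/δ + 1))` (increasing),
`T₂ t = min 1 (max 0 (1 - (t - v)/δ))` (decreasing), both in `[0,1]`: `max 0 (1 - |t-v|/δ) = T₁ t + T₂ t - 1`, `δ = 1/N`; the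
variation of each of them along a monotone sequence telescopes and is `≤ 1`. -/
def TRV_stmt : Prop := ∀ N : ℕ, 1 ≤ N → ∀ x : ℕ → ℕ, Monotone x → 1 ≤ x 0 → ∀ n : ℕ,
  ∑ i ∈ range n, |fN N (x (i + 1)) - fN N (x i)| ≤ 2

/-- **TRA** (medium).  From TRB, TRV.  Let `S a` be the sum over the class `a mod q`, `0 ≤ a < q` (sums over all `j ≥ 1`, `fN` vanishes
outside the window).  For `a < a'`: `S a' - S a = ∑_k (f (a' + kq) - f (a + kq))` and the sequence `a, a', a+q, a'+q, ...` is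
monotone, so `|S a' - S a| ≤ 2` (start the sequence at `k = 1`: `f` vanishes for `j ≤ N³`, and for `q > N³` each class has at
most one element up to `N³`..: simply skip `j = 0`).  Average over `a'`: `|S a - XN/q| ≤ 2`. -/
def TRA_stmt : Prop := ∃ C : ℝ, 0 < C ∧ ∀ N : ℕ, 4 ≤ N → ∀ q a : ℕ, 1 ≤ q →
  |∑ j ∈ Win N with j ≡ a [MOD q], fN N j - XN N / q| ≤ C

/-- **ABL** (medium).  From TRB, TRV.  Abel summation, `F b = (log b)^h f(kb)`, `Λ = 1 + log(64N³)`: `|F X| ≤ Λ`,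
`∑ |F(b+1) - F b| ≤ ∑ |Δ (log b)^h| f + ∑ (log b)^h |Δ f| ≤ Λ + 2Λ`. -/
def ABL_stmt : Prop := ∀ N : ℕ, 2 ≤ N → ∀ (k h X : ℕ) (E : ℝ) (c : ℕ → ℝ), 1 ≤ k → h ≤ 1 → X ≤ 64 * N ^ 3 →
  (∀ Y : ℕ, |∑ b ∈ Ioc 0 Y, c b| ≤ E) →
  |∑ b ∈ Ioc 0 X, c b * Real.log b ^ h * fN N (k * b)| ≤ 4 * (1 + Real.log (64 * (N : ℝ) ^ 3)) * E

/-! ## The kernel -/

/-- **KKD** (short, medium).  Orthogonality (`BV_orth`), the characters of conductor `> R` are split by `2^i R < cond ≤ 2^(i+1) R`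
(`cond ≤ M ≤ 2^I R`).  Compare helper92/CH/BVW.lean.  For `(j,M) > 1` both sides vanish. -/
def KKD_stmt : Prop := ∀ M a R I j : ℕ, 0 < M → Nat.Coprime a M → 1 ≤ R → M ≤ 2 ^ I * R →
  KK R M a j = ∑ i ∈ range I, kp (2 ^ i * R) M a j

/-- **KKS** (medium).  `|ks R M a j| ≤ R²/φ(M)` (`GD.BV4_card`, `‖χ‖ ≤ 1`), `φ(30m) ≥ φ(m)`, `BV1_sum_inv`.  If `j ≡ r m mod 30m` then
`m ∣ j + 6` (ClP) resp. `m ∣ j - 6` (ClB, `j ≥ 7`). -/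
def KKS_stmt : Prop := ∃ C : ℝ, 0 < C ∧ (∀ R M a j : ℕ, 0 < M → |ks R M a j| ≤ (R : ℝ) ^ 2 / (Nat.totient M : ℝ)) ∧
  ∀ (Q : ℝ) (R j : ℕ) (r : ℕ → ℕ), 1 ≤ Q → 1 ≤ R →
  (ClP r → ∑ m ∈ Mo Q, |KK R (30 * m) (r m) j| ≤
    (#((Mo Q).filter fun m => m ∣ j + 6) : ℝ) + C * (R : ℝ) ^ 2 * (1 + Real.log Q)) ∧
  (ClB r → 7 ≤ j → ∑ m ∈ Mo Q, |KK R (30 * m) (r m) j| ≤
    (#((Mo Q).filter fun m => m ∣ j - 6) : ℝ) + C * (R : ℝ) ^ 2 * (1 + Real.log Q))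

/-! ## Type II -/

/-- **BIL** (medium).  One block.  `δ = 1/N`; with `x = log a`, `y = log b`:
`tri v δ (ab) = (1/δ) ∫ 1[|x - u| ≤ δ/2] 1[|y - (v - u)| ≤ δ/2] du` (the `u` form an interval of length `max 0 (δ - |x+y-v|)`).
For fixed `u` the `a ∈ (M, 2M]` with `|log a - u| ≤ δ/2` form an interval `(M₁, M₂]`, `M₂ - M₁ ≤ 2M(e^δ - 1) + 1 ≤ 4M/N + 1`, the
same for `b`; `GD.BV1` with `Q' = ⌊30Q⌋`, class function `m' ↦ r(m'/30)`, only the `m' = 30m` are kept, gives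
`∑_m |∑∑| ≤ C (1 + log 30Q)/R · √((4M/N + 1 + 4R²)(4K/N + 1 + 4R²) A(u) B(u))`, `A(u) = ∑ α_a²` over the interval.  Finally
`√(A B) ≤ (t A + B/t)/2` with a constant `t`, `∫ A(u) du = δ ∑ α²`, `∫ B = δ ∑ β²`, and the best `t` (trivial if `α` or `β` vanishes on
the block).  (Sum and integral are interchanged; the integrand is a finite linear combination of indicators.) -/
def BIL_stmt : Prop := ∃ C : ℝ, 0 < C ∧ ∀ (N : ℕ) (Q v : ℝ) (R : ℕ) (r : ℕ → ℕ) (α β : ℕ → ℝ) (M K : ℕ),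
  1 ≤ N → 1 ≤ Q → 1 ≤ R → 1 ≤ M → 1 ≤ K →
  ∑ m ∈ Mo Q, |∑ a ∈ Ioc M (2 * M), ∑ b ∈ Ioc K (2 * K),
      α a * β b * (tri v (1 / (N : ℝ)) (a * b) * kp R (30 * m) (r m) (a * b))| ≤
    C * (1 + Real.log Q) / R * √(((M : ℝ) / N + (R : ℝ) ^ 2) * ((K : ℝ) / N + (R : ℝ) ^ 2) *
      (∑ a ∈ Ioc M (2 * M), α a ^ 2) * (∑ b ∈ Ioc K (2 * K), β b ^ 2))

/-- **BIM** (medium).  From BIL, TRB.  For `R > 30Q` all `kp R (30m)` vanish (conductor `≤ 30m`).  `j = ab` in the window; `a, b` in dyadic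
blocks `(2^i, 2^(i+1)]`, `(2^l, 2^(l+1)]`, at most `(6L)²` blocks with `MK ≤ 8N³`, `M, K ≥ N L^C/2`, hence `M, K ≤ 16 N² L^(-C)`;
`(M/N + R²)(K/N + R²) ≤ 8N + 32 N L^(-C) R² + R⁴`, `∑ α² ∑ β² ≤ 4MK L^(2E) ≤ 32 N³ L^(2E)`: a block is at most
`C' L^(E+1) (N²/R + N² L^(-C/2) + R N^(3/2))`, `R ≤ 30 N^(1/2-ε)`, `R ≥ L^B`; `B = A+E+4`, `C = 2(A+E+4)`.  (Terms `(a,b)` outside the
window have `fN = 0`; the sum over `j` of `cvl` is the sum over the pairs with `ab ∈ Win N`.) -/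
def BIM_stmt : Prop := ∀ (ε : ℝ) (A E : ℕ), 0 < ε → ε < 1 / 2 → ∃ B C N₀ : ℕ, ∀ N : ℕ, N₀ ≤ N →
  ∀ (r : ℕ → ℕ) (R : ℕ), Real.log N ^ B ≤ R → ∀ α β : ℕ → ℝ,
  (∀ a, α a ≠ 0 → (N : ℝ) * Real.log N ^ C ≤ a) → (∀ b, β b ≠ 0 → (N : ℝ) * Real.log N ^ C ≤ b) →
  (∀ Y : ℕ, Y ≤ 64 * N ^ 3 → ∑ a ∈ Ioc 0 Y, α a ^ 2 ≤ Y * Real.log N ^ E) →
  (∀ Y : ℕ, Y ≤ 64 * N ^ 3 → ∑ b ∈ Ioc 0 Y, β b ^ 2 ≤ Y * Real.log N ^ E) →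
  ∑ m ∈ Mo ((N : ℝ) ^ (1 / 2 - ε)), |∑ j ∈ Win N, cvl α β j * fN N j * kp R (30 * m) (r m) j| ≤
    (N : ℝ) ^ 2 / Real.log N ^ A

/-- **VBD** (medium).  `|eU U d| ≤ ∑_{b ∣ d} Λ(b) = log d`; `|beta U k| ≤ τ(k)`, `sum_tau_sq_le`; `log(64N³) ≤ 4L`.  A product `ab` of
rough numbers is rough and conversely (used for `rst`).  `eU U d = 0` for `d > U²`. -/
def VBD_stmt : Prop := (∀ U d : ℕ, 1 ≤ d → |eU U d| ≤ Real.log d) ∧ (∀ U d : ℕ, U ^ 2 < d → eU U d = 0) ∧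
  ∃ N₀ : ℕ, ∀ N : ℕ, N₀ ≤ N → ∀ U Y : ℕ, Y ≤ 64 * N ^ 3 →
  (∑ k ∈ Ioc 0 Y, rst N U (fun b => vonMangoldt b) k ^ 2 ≤ Y * Real.log N ^ 5) ∧
  (∑ k ∈ Ioc 0 Y, rst N U (fun k => beta U k) k ^ 2 ≤ Y * Real.log N ^ 5) ∧
  (∑ k ∈ Ioc 0 Y, rst N U (fun k => eU U k) k ^ 2 ≤ Y * Real.log N ^ 5) ∧
  ∑ k ∈ Ioc 0 Y, rst N U (fun _ => 1) k ^ 2 ≤ Y * Real.log N ^ 5

/-- **TII** (short).  From BIM with `E = 5` and exponent `A + 1`, VBD; `k > ⌊N L^C⌋` implies `k ≥ N L^C`. -/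
def TII_stmt : Prop := ∀ (ε : ℝ) (A : ℕ), 0 < ε → ε < 1 / 2 → ∃ B C N₀ : ℕ, ∀ N : ℕ, N₀ ≤ N →
  ∀ (r : ℕ → ℕ) (R : ℕ), Real.log N ^ B ≤ R →
  ∑ m ∈ Mo ((N : ℝ) ^ (1 / 2 - ε)), |∑ j ∈ Win N, tII C N j * fN N j * kp R (30 * m) (r m) j| ≤
    (N : ℝ) ^ 2 / Real.log N ^ A

/-! ## Vaughan's identity on the rough numbers -/

/-- **VID** (medium).  `vaughan U U` at a rough `j` of the window, `U = UN C N`, `U < j`: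
`Λ(j) = ∑_{d ∣ j, d ≤ U} μ(d) log(j/d) - ∑_{k ∣ j} eU U k + ∑_{b ∣ j, b > U} Λ(b) beta U (j/b)` (`beta U k = 0` for `k ≤ U`).  In the second sum:
`k ≤ U` goes to `tI`; `k > U`, `j/k > U` goes to `tII`; `k > U`, `c = j/k ≤ U` is `- edg` (for `c ≤ U` automatically `k = j/c > U` since
`U² < N³`).  Divisors of a rough number are rough.  For `j` not rough all terms vanish (`rst` at both factors forces `j` rough). -/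
def VID_stmt : Prop := ∀ C : ℕ, ∃ N₀ : ℕ, ∀ N : ℕ, N₀ ≤ N → ∀ j ∈ Win N, mnf C N j = tI C N j + tII C N j

/-! ## Brun's pure sieve and type I -/

/-- **BPS** (medium, long).  `y = yN N`, `s = ⌈S log L⌉`, `D` = squarefree `y`-smooth numbers with at most `s` prime factors, `D'` = those with
exactly `s+1` (all primes `≤ y`).  Bonferroni: with `n` = number of primes `≤ y` dividing `c`,
`|1[n = 0] - ∑_{i ≤ s} (-1)^i C(n,i)| = C(n-1, s) ≤ C(n, s+1)` (`n ≥ 1`; `Int.alternating_sum_range_choose`-type lemmas), and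
`C(n, s+1) = #{e ∈ D' : e ∣ c}`.  `e ≤ y^(s+1)`, `log e ≤ (s+1) L^(19/20) ≤ κ L`.
`∑_{e ∈ D'} 1/e ≤ (∑_{p ≤ y} 1/p)^(s+1)/(s+1)! ≤ (e (log L + C₁)/(s+1))^(s+1) ≤ e^(-(s+1)) ≤ L^(-A)` for `S ≥ A + 8` (MER of project CH for
`∑_{p ≤ y} 1/p ≤ log log y + C₁`, or compare SieveInterval.lean, BrunHooley.lean (`bonferroni`, `es_le_pow_div`) in Pool/Agent/Lib). -/
def BPS_stmt : Prop := ∀ (A : ℕ) (κ : ℝ), 0 < κ → ∃ N₀ : ℕ, ∀ N : ℕ, N₀ ≤ N → ∃ D D' : Finset ℕ,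
  (∀ e ∈ D ∪ D', 1 ≤ e ∧ (e : ℝ) ≤ (N : ℝ) ^ κ) ∧
  (∀ c : ℕ, 1 ≤ c → (rgh (yN N) c → |1 - ∑ e ∈ D with e ∣ c, ((moebius e : ℤ) : ℝ)| ≤ #(D'.filter fun e => e ∣ c)) ∧
    (¬ rgh (yN N) c → |∑ e ∈ D with e ∣ c, ((moebius e : ℤ) : ℝ)| ≤ #(D'.filter fun e => e ∣ c))) ∧
  ∑ e ∈ D', 1 / (e : ℝ) ≤ 1 / Real.log N ^ A

/-- **TYI** (medium, long).  From BPS (`κ = ε/10`, exponent `A + 2B + 20`), ABL, KKD, KKS, TRB, `GD.BV2`.  `j = d c`, `d ≤ U = UN C N`; `j` is rough iff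
`d` and `c` are; put `ξ' d = ξ d` for rough `d`, `0` otherwise, and replace `1[c rough]` by `∑_{e ∈ D, e ∣ c} μ(e)`.
Main part: `c = e g`; for fixed `d, e, m` and each of the `≤ 3L` values `R' = 2^i R` (KKD, `R' ≤ 60Q`): `∑_g (log(eg))^h fN(deg) kp R' (30m) (r m) (deg)`
is `≤ C L² · R' τ(30m)` (BV2: `|∑_{g ≤ Y} kp R' M a (k g)| ≤ 2R' τ(M)`, ABL; `log(eg) = log e + log g`); total
`≤ Q · U N^κ L² · C L³ Q τ(30m) ≤ N^(2-2ε+ε/2)`.  Error: `≤ 5 L³ ∑_{j ∈ Win} ∑_{d ∣ j, d ≤ U} ∑_{e ∈ D', e ∣ j/d} ∑_m |KK R (30m) (r m) j|`; by KKS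
this is `≤ 5L³ ∑_{d ≤ U} ∑_{e ∈ D'} (∑_{m ∈ Mo Q} #{j ∈ Win : de ∣ j, m ∣ j ± 6} + C R² L · #{j ∈ Win : de ∣ j})`; if a prime divides `m` and `de`
there is no such `j` (it would divide `6`, `(m,30) = 1`), otherwise `#{j : de ∣ j, m ∣ j ± 6} ≤ 4N²/(dem) + 1`; the sum is
`≤ C L^(2B+7) N² ∑_{e ∈ D'} 1/e + N^(1+κ) Q L^C·..`. -/
def TYI_stmt : Prop := ∀ (ε : ℝ) (A B C : ℕ), 0 < ε → ε < 1 / 2 → ∃ N₀ : ℕ, ∀ N : ℕ, N₀ ≤ N →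
  ∀ r : ℕ → ℕ, (ClP r ∨ ClB r) → ∀ R : ℕ, 1 ≤ R → (R : ℝ) ≤ Real.log N ^ B → ∀ (h : ℕ) (ξ : ℕ → ℝ), h ≤ 1 →
  (∀ d : ℕ, d ≤ UN C N → |ξ d| ≤ Real.log N ^ 2) →
  ∑ m ∈ Mo ((N : ℝ) ^ (1 / 2 - ε)), |∑ j ∈ Win N, tyI N (UN C N) h ξ j * fN N j * KK R (30 * m) (r m) j| ≤
    (N : ℝ) ^ 2 / Real.log N ^ A

/-- **LCE** (short, medium).  From VID, TYI (twice: `ξ = μ`, `h = 1`; `ξ = eU`, `h = 0`; `|eU U d| ≤ log d ≤ L²` by VBD), TII, KKD (`KK R₀ = ∑_{i < I} kp (2^i R₀)`,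
`I ≤ 3L`, `2^i R₀ ≥ L^B`).  `B, C` from TII with exponent `A + 3`, then TYI with `B + 1`, `C`. -/
def LCE_stmt : Prop := ∀ (ε : ℝ) (A : ℕ), 0 < ε → ε < 1 / 2 → ∃ B C N₀ : ℕ, ∀ N : ℕ, N₀ ≤ N →
  ∀ r : ℕ → ℕ, ClP r →
  ∑ m ∈ Mo ((N : ℝ) ^ (1 / 2 - ε)),
      |∑ j ∈ Win N, mnf C N j * fN N j * KK ⌈Real.log N ^ B⌉₊ (30 * m) (r m) j| ≤ (N : ℝ) ^ 2 / Real.log N ^ A

/-! ## Small conductors and the primes -/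

open Classical in
/-- **NRP** (short).  `Λ(j) ≠ 0` and `j` not rough: `j = p^k`, `p ≤ y`, `k ≤ log j/log 2`; at most `y · 6L` such `j ≤ 8N³`, `Λ ≤ 4L`,
`y = exp(L^(19/20)) ≤ N^(1/50)`. -/
def NRP_stmt : Prop := ∃ N₀ : ℕ, ∀ N : ℕ, N₀ ≤ N → ∑ j ∈ Win N with ¬ rgh (yN N) j, vonMangoldt j ≤ (N : ℝ) ^ (1 / 10 : ℝ)

/-- **SMP** (short).  From SCL, SCE (exponents `A + 1`), NRP, KKS (`|ks| ≤ R²/φ(M)`), TRB. -/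
def SMP_stmt : Prop := ∀ A B C : ℕ, ∃ N₀ : ℕ, ∀ N : ℕ, N₀ ≤ N → ∀ M a R : ℕ, 0 < M → M ≤ 64 * N ^ 3 →
  Nat.Coprime a M → 1 ≤ R → (R : ℝ) ≤ Real.log N ^ B →
  |∑ j ∈ Win N, mnf C N j * fN N j * ks R M a j -
      1 / (Nat.totient M : ℝ) * ∑ j ∈ Win N, mnf C N j * fN N j| ≤
    1 / (Nat.totient M : ℝ) * ((N : ℝ) ^ 2 / Real.log N ^ A)

/-- **BVE** (short, medium).  From LCE (exponent `A + 1`), SMP (`B + 1`, exponent `A + 2`; `R = ⌈L^B⌉₊`), definition of KK, `∑_{m ≤ N} 1/φ(30m) ≤ C L`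
(`BV1_sum_inv`).  `(r m, 30m) = 1` for ClP (see helper92/CH/BVW.lean). -/
def BVE_stmt : Prop := ∀ (ε : ℝ) (A : ℕ), 0 < ε → ε < 1 / 2 → ∃ C N₀ : ℕ, ∀ N : ℕ, N₀ ≤ N →
  ∀ r : ℕ → ℕ, ClP r →
  ∑ m ∈ Mo ((N : ℝ) ^ (1 / 2 - ε)),
      |∑ j ∈ Win N with j ≡ r m [MOD 30 * m], mnf C N j * fN N j -
        1 / (Nat.totient (30 * m) : ℝ) * ∑ j ∈ Win N, mnf C N j * fN N j| ≤ (N : ℝ) ^ 2 / Real.log N ^ A

/-- **EXW** (short, medium).  Interchange of summation, any weights; compare EXC of project CH (helper17/CH/EXC.lean): for `m` prime to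
`30` the conditions `j % 30 = 1`, `m ∣ j + 6` are `j ≡ r m mod 30m` (ClP); `b % 30 = 7`, `m ∣ b - 6` are `b ≡ r m mod 30m` (ClB).  Such `r` exist (EXC). -/
def EXW_stmt : Prop := (∃ r : ℕ → ℕ, ClP r) ∧ (∃ r : ℕ → ℕ, ClB r) ∧
  ∀ (w l : ℕ → ℝ) (Q : ℝ) (r : ℕ → ℕ) (S : Finset ℕ), (∀ m, l m ≠ 0 → Nat.Coprime m 30 ∧ (m : ℝ) ≤ Q) →
  (ClP r → ∑ j ∈ S with j % 30 = 1, w j * wt l (j + 6) =
    ∑ m ∈ Mo Q, l m * ∑ j ∈ S with j ≡ r m [MOD 30 * m], w j) ∧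
  (ClB r → (∀ b ∈ S, 7 ≤ b) → ∑ b ∈ S with b % 30 = 7, w b * wt l (b - 6) =
    ∑ m ∈ Mo Q, l m * ∑ b ∈ S with b ≡ r m [MOD 30 * m], w b)

/-- **MTA** (medium).  `P` = primes of `[7, Q]`, `g p = 1/(p-1)`.  For `l` supported on squarefree numbers prime to `30`, `≤ Q`:
`mt Q l = ∑_{D ⊆ P} l(∏ D) ∏_{p ∈ D} g p = Eg P g (fun A => wt l (∏ A))` (interchange: `∑_{A ⊇ D} ∏_A g ∏_{P\A} (1-g) = ∏_D g`), and
`0 ≤ g ≤ 1`. -/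
def MTA_stmt : Prop :=
  (∀ (K Q : ℝ) (l : ℕ → ℝ), Adm K Q l → (∀ a : ℕ, 1 ≤ a → 0 ≤ wt l a) → 0 ≤ mt Q l) ∧
  ∀ (K Q : ℝ) (l l' : ℕ → ℝ), Adm K Q l → Adm K Q l' → (∀ a : ℕ, 1 ≤ a → |wt l a| ≤ wt l' a) → |mt Q l| ≤ mt Q l'

/-- **EDP** (edges of the primes; block P, not a row of this file). -/
def EDP_stmt : Prop := ∀ (C : ℕ) (ε ε' K : ℝ), 0 < ε → ε < 1 / 2 → 0 < ε' → 0 < K → ∃ N₀ : ℕ, ∀ N : ℕ, N₀ ≤ N →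
  ∀ l : ℕ → ℝ, Adm K ((N : ℝ) ^ (1 / 2 - ε)) l → (∀ a : ℕ, 1 ≤ a → 0 ≤ wt l a) →
  mt ((N : ℝ) ^ (1 / 2 - ε)) l ≤ K / Real.log N →
  ∑ j ∈ Win N with j % 30 = 1, |edg C N j| * fN N j * wt l (j + 6) ≤ ε' * (N : ℝ) ^ 2 / Real.log N ∧
  ∑ j ∈ Win N, |edg C N j| * fN N j ≤ ε' * (N : ℝ) ^ 2

/-- **PRM** (medium).  From BVE, EDP, PNW, MTA, EXW, NRP, TRB.  For `ε ≥ 1/2` replace `ε` by `1/4` (`Adm`, `mt` do not change: `l` is supported on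
`m ≤ N^(1/2-ε) ≤ 1`).  `Λ = mnf + edg` on rough `j`.  (1) non-rough `j`: `|wt l (j+6)| ≤ K τ(j+6) ≤ N^(1/10)·..`, NRP.  (2) `∑ |edg| fN |wt l| ≤ ∑ |edg| fN wt l'` (EDP.1 with
`ε'/4`).  (3) `∑_{j % 30 = 1} mnf fN wt l (j+6) = ∑_{m ∈ Mo Q} l m ∑_{j ≡ r m} mnf fN` (EXW) `= (∑ mnf fN) ∑ l m/φ(30m) + O(K N²/L²)` (BVE, `A = 2`), and
`∑_{m ∈ Mo Q} l m/φ(30m) = mt l/8` (`φ(30m) = 8φ(m)`).  (4) `∑ mnf fN = XN + O(N²/L) + O(ε'' N²)` (PNW, NRP, EDP.2), `|mt l| ≤ mt l' ≤ K/L` (MTA). -/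
def PRMr_stmt : Prop := PRM_stmt

end Pool.Agent.EC
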